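import Pool.Agent.Work.MP_9999b5_m2.Interface

set_option autoImplicit false

namespace Pool.Agent.Work.MP_9999b5_m2

open Finset Pool.Agent.Work.MP_9999b5_mr

theorem AVE_erase (u : ℕ) (y : Fin (2 * u + 2) → ℝ) (c : ℝ) (M : Fin (2 * u + 2)) :
    Hc (univ.erase M) y c = (Hc univ y c).erase M := by
  unfold Hc
  ext i
  simp only [mem_filter, mem_erase, mem_univ, and_true, true_and]

theorem AVE_card (u : ℕ) (y : Fin (2 * u + 2) → ℝ) (h0 : 0 ≤ ∑ i, y i) (h1 : ∃ i, y i ≠ 0) :
    (Hc univ y (∑ i, y i)).card ≤ 2 * u + 1 := by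
  by_contra hc
  rw [not_le] at hc
  have h2 : Hc univ y (∑ i, y i) = univ := by
    apply Finset.eq_univ_of_card
    rw [Fintype.card_fin]
    have := Finset.card_le_univ (Hc univ y (∑ i, y i))
    rw [Fintype.card_fin] at this
    omega
  have h3 : ∀ i, ∑ j, y j ≤ y i := by
    intro i
    have : i ∈ Hc univ y (∑ i, y i) := by
      rw [h2]
      exact mem_univ i
    exact (mem_filter.1 this).2
  obtain ⟨i, hi⟩ := h1
  have h4 : ∀ j, 0 ≤ y j := fun j => le_trans h0 (h3 j)
  have h5 : 0 < y i := lt_of_le_of_ne (h4 i) (Ne.symm hi)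
  -- another element
  obtain ⟨j, hj⟩ : ∃ j : Fin (2 * u + 2), j ≠ i := by
    by_contra hh
    push Not at hh
    have e1 := hh ⟨0, by omega⟩
    have e2 := hh ⟨1, by omega⟩
    have e3 := e1.trans e2.symm
    rw [Fin.mk.injEq] at e3
    omega
  have h6 : y i + y j ≤ ∑ l, y l := by
    rw [← Finset.sum_erase_add univ y (mem_univ i), add_comm (y i)]
    have : y j ≤ ∑ l ∈ univ.erase i, y l :=
      Finset.single_le_sum (f := y) (fun l _ => h4 l) (mem_erase.2 ⟨hj, mem_univ j⟩)
    linarith
  have h7 := h3 j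
  linarith

theorem AVE_split (u : ℕ) (H : Finset (Fin (2 * u + 2))) (f : Fin (2 * u + 2) → ℕ) (p q : ℕ)
    (hp : ∀ M ∈ H, f M ≤ p) (hq : ∀ M, M ∉ H → f M ≤ q) :
    ∑ M, f M ≤ H.card * p + (2 * u + 2 - H.card) * q := by
  rw [← Finset.sum_add_sum_compl H f]
  apply Nat.add_le_add
  · refine (sum_le_card_nsmul _ _ p hp).trans (le_of_eq (smul_eq_mul _ _))
  · have hc : (Hᶜ).card = 2 * u + 2 - H.card := by
      rw [card_compl, Fintype.card_fin]
    rw [← hc]
    refine (sum_le_card_nsmul _ _ q ?_).trans (le_of_eq (smul_eq_mul _ _))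
    intro M hM
    exact hq M (mem_compl.1 hM)

theorem AVE_split_eq (u : ℕ) (H : Finset (Fin (2 * u + 2))) (f : Fin (2 * u + 2) → ℕ) (p q : ℕ)
    (hp : ∀ M ∈ H, f M = p) (hq : ∀ M, M ∉ H → f M = q) :
    ∑ M, f M = H.card * p + (2 * u + 2 - H.card) * q := by
  rw [← Finset.sum_add_sum_compl H f, sum_congr rfl hp, sum_const, smul_eq_mul]
  congr 1
  have hc : (Hᶜ).card = 2 * u + 2 - H.card := by
    rw [card_compl, Fintype.card_fin]
  rw [← hc, sum_congr rfl (fun M hM => hq M (mem_compl.1 hM)), sum_const, smul_eq_mul]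

theorem AVE_arith (u s A X : ℕ) (hs : s ≤ 2 * u + 1)
    (h1 : s ≤ 2 * u → A ≤ s * (((s - 1) + (s - 1) % 2) * X) +
      (2 * u + 2 - s) * ((s + s % 2) * X))
    (h2 : s = 2 * u + 1 → A ≤ s * (((s - 1) + (s - 1) % 2) * X) +
      (2 * u + 2 - s) * ((2 * (2 * u + 1)) * X)) :
    A ≤ (s * (s - 1) + (2 * u + 2 - s) * s + (2 * u + 1)) * X ∧
      A ≤ (2 * u + 1) * (2 * u + 2) * X := by
  by_cases hcase : s ≤ 2 * u
  · have hT := h1 hcase
    obtain ⟨l, hl⟩ : ∃ l, 2 * u + 2 = s + l := ⟨2 * u + 2 - s, by omega⟩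
    have hl2 : 2 * u + 2 - s = l := by omega
    rw [hl2] at hT ⊢
    rcases Nat.even_or_odd' s with ⟨n, hn | hn⟩
    · rcases Nat.eq_zero_or_pos n with hn0 | hn0
      · have hs0 : s = 0 := by rw [hn, hn0]
        rw [hs0] at hT ⊢
        simp only [Nat.mul_zero, Nat.zero_mul, Nat.zero_mod, Nat.zero_add, Nat.add_zero] at hT ⊢
        exact ⟨hT.trans (Nat.zero_le _), hT.trans (Nat.zero_le _)⟩
      · have e1 : (s - 1) + (s - 1) % 2 = 2 * n := by omega
        have e2 : s + s % 2 = 2 * n := by omega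
        have e3 : s - 1 = 2 * n - 1 := by omega
        rw [e1, e2] at hT
        obtain ⟨n', hn'⟩ : ∃ n', n = n' + 1 := ⟨n - 1, by omega⟩
        have e6 : 2 * n - 1 = 2 * n' + 1 := by omega
        constructor
        · refine hT.trans ?_
          have e4 : s * (2 * n * X) + l * (2 * n * X) = (s * (2 * n' + 1) + s + l * s) * X := by
            rw [hn, hn']
            ring
          rw [e4, e3, e6]
          apply Nat.mul_le_mul_right
          omega
        · refine hT.trans ?_
          have e4 : s * (2 * n * X) + l * (2 * n * X) = (2 * n) * (2 * u + 2) * X := by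
            rw [hl]
            ring
          rw [e4]
          apply Nat.mul_le_mul_right
          apply Nat.mul_le_mul_right
          omega
    · have e1 : (s - 1) + (s - 1) % 2 = 2 * n := by omega
      have e2 : s + s % 2 = 2 * n + 2 := by omega
      have e3 : s - 1 = 2 * n := by omega
      rw [e1, e2] at hT
      rw [e3]
      constructor
      · refine hT.trans ?_
        have e4 : s * (2 * n * X) + l * ((2 * n + 2) * X) =
            (s * (2 * n) + l * s + l) * X := by
          rw [hn]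
          ring
        rw [e4]
        apply Nat.mul_le_mul_right
        omega
      · refine hT.trans ?_
        have e4 : s * (2 * n * X) + l * ((2 * n + 2) * X) ≤
            (s + l) * ((2 * n + 2) * X) := by
          have h5 : 2 * n * X ≤ (2 * n + 2) * X := Nat.mul_le_mul_right _ (by omega)
          have h6 := Nat.mul_le_mul_left s h5
          rw [Nat.add_mul s l]
          exact Nat.add_le_add_right h6 _
        refine e4.trans ?_
        rw [← hl]
        calc (2 * u + 2) * ((2 * n + 2) * X) = (2 * n + 2) * (2 * u + 2) * X := by ring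
          _ ≤ (2 * u + 1) * (2 * u + 2) * X := by
            apply Nat.mul_le_mul_right
            apply Nat.mul_le_mul_right
            omega
  · have hsc : s = 2 * u + 1 := by omega
    have hT := h2 hsc
    have e1 : (s - 1) + (s - 1) % 2 = 2 * u := by omega
    have e2 : 2 * u + 2 - s = 1 := by omega
    have e3 : s - 1 = 2 * u := by omega
    rw [e1, e2, hsc] at hT
    rw [e2, e3, hsc]
    constructor
    · refine hT.trans (le_of_eq ?_)
      ring
    · refine hT.trans (le_of_eq ?_)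
      ring

theorem p_AVE : Stmt_ONE2 → Stmt_TRV → Stmt_AVE := by
  intro hONE hTRV u y w hu h0 h1
  obtain ⟨c, hc⟩ : ∃ c, c = ∑ i, y i := ⟨_, rfl⟩
  obtain ⟨H, hH⟩ : ∃ H, H = Hc univ y (∑ i, y i) := ⟨_, rfl⟩
  obtain ⟨X, hX⟩ : ∃ X, X = (2 * u).choose u := ⟨_, rfl⟩
  have hs : H.card ≤ 2 * u + 1 := by
    rw [hH]
    exact AVE_card u y h0 h1
  have hJ1 : ∀ M ∈ H, (Hc (univ.erase M) y (∑ i, y i)).card = H.card - 1 := by
    intro M hM
    rw [AVE_erase, ← hH, card_erase_of_mem hM]
  have hJ2 : ∀ M, M ∉ H → (Hc (univ.erase M) y (∑ i, y i)).card = H.card := by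
    intro M hM
    rw [AVE_erase, ← hH, erase_eq_of_notMem hM]
  have hcard : ∀ M : Fin (2 * u + 2), (univ.erase M).card = 2 * u + 1 := by
    intro M
    rw [card_erase_of_mem (mem_univ M), card_univ, Fintype.card_fin]
    rfl
  have hsum : ∀ M : Fin (2 * u + 2),
      ∑ i, y i = ∑ i ∈ univ.erase M, y i + w M + (y M - w M) := by
    intro M
    rw [← Finset.sum_erase_add univ y (mem_univ M)]
    ring
  have hone : ∀ M : Fin (2 * u + 2), (Hc (univ.erase M) y (∑ i, y i)).card ≤ 2 * u →
      2 * bad2 (univ.erase M) y (w M) (y M - w M) u ≤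
        ((Hc (univ.erase M) y (∑ i, y i)).card +
          (Hc (univ.erase M) y (∑ i, y i)).card % 2) * X := by
    intro M hM
    rw [hX]
    exact hONE _ (univ.erase M) y (w M) (y M - w M) (∑ i, y i) u (hcard M) (hsum M) hM
  have htrv : ∀ M : Fin (2 * u + 2),
      2 * bad2 (univ.erase M) y (w M) (y M - w M) u ≤ (2 * (2 * u + 1)) * X := by
    intro M
    rw [hX, mul_assoc]
    exact Nat.mul_le_mul_left 2 (hTRV _ (univ.erase M) y (w M) (y M - w M) u (hcard M))
  have hJJ : JJ u y = H.card * (H.card - 1) + (2 * u + 2 - H.card) * H.card :=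
    AVE_split_eq u H _ _ _ hJ1 hJ2
  have hBB : 2 * BB u y w = ∑ M, 2 * bad2 (univ.erase M) y (w M) (y M - w M) u := by
    unfold BB
    rw [mul_sum]
  have hup : ∀ M ∈ H, 2 * bad2 (univ.erase M) y (w M) (y M - w M) u ≤
      ((H.card - 1) + (H.card - 1) % 2) * X := by
    intro M hM
    have h := hone M (by rw [hJ1 M hM]; omega)
    rw [hJ1 M hM] at h
    exact h
  rw [hBB, hJJ, ← hX]
  apply AVE_arith u H.card _ X hs
  · intro hcase
    have hlo : ∀ M, M ∉ H → 2 * bad2 (univ.erase M) y (w M) (y M - w M) u ≤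
        (H.card + H.card % 2) * X := by
      intro M hM
      have h := hone M (by rw [hJ2 M hM]; exact hcase)
      rw [hJ2 M hM] at h
      exact h
    exact AVE_split u H _ _ _ hup hlo
  · intro _
    exact AVE_split u H _ _ _ hup (fun M _ => htrv M)

end Pool.Agent.Work.MP_9999b5_m2
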