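import Pool.Agent.Work.MP_9999b5_m2.Interface

/-!
AVT (MP_9999b5_co, `T ∣ 2k`, typed by helper76): two nonzero blocks.
-/

set_option autoImplicit false

namespace Pool.Agent.Work.MP_9999b5_m2

open Finset Pool.Agent.Work.MP_9999b5_mr

lemma AVT_sum {n : ℕ} (y : Fin n → ℝ) {i j : Fin n} {d : ℝ} (hij : i ≠ j) (hyi : y i = d)
    (hyj : y j = -d) (hy0 : ∀ l, l ≠ i → l ≠ j → y l = 0) : ∑ l, y l = 0 := by
  rw [Finset.sum_eq_add i j hij (fun l _ hl => hy0 l hl.1 hl.2)
    (fun h => absurd (mem_univ i) h) (fun h => absurd (mem_univ j) h), hyi, hyj]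
  ring

lemma AVT_Hc {n : ℕ} (y : Fin n → ℝ) {i j : Fin n} {d : ℝ} (hd : 0 < d) (hyi : y i = d)
    (hyj : y j = -d) (hy0 : ∀ l, l ≠ i → l ≠ j → y l = 0) (M : Fin n) :
    Hc (univ.erase M) y 0 = (univ.erase M).erase j := by
  ext z
  unfold Hc
  rw [mem_filter, mem_erase (s := univ.erase M)]
  constructor
  · rintro ⟨h1, h2⟩
    refine ⟨?_, h1⟩
    rintro rfl
    rw [hyj] at h2
    linarith
  · rintro ⟨h1, h2⟩
    refine ⟨h2, ?_⟩
    by_cases hz : z = i
    · rw [hz, hyi]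
      exact hd.le
    · rw [hy0 z hz h1]

theorem p_AVT (hONE2 : Stmt_ONE2) (hTWO : Stmt_TWO) : Stmt_AVT := by
  rintro u y w hu ⟨i, j, d, hij, hd, hyi, hyj, hy0⟩
  have hsum := AVT_sum y hij hyi hyj hy0
  have hHc := AVT_Hc y hd hyi hyj hy0
  have hcard : ∀ M : Fin (2 * u + 2), (univ.erase M).card = 2 * u + 1 := by
    intro M
    rw [card_erase_of_mem (mem_univ M), card_univ, Fintype.card_fin]
    omega
  have hHj : (Hc (univ.erase j) y (∑ i, y i)).card = 2 * u + 1 := by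
    rw [hsum, hHc, erase_eq_of_notMem (notMem_erase j univ), hcard]
  have hHM : ∀ M, M ≠ j → (Hc (univ.erase M) y (∑ i, y i)).card = 2 * u := by
    intro M hM
    rw [hsum, hHc, card_erase_of_mem (mem_erase.2 ⟨hM.symm, mem_univ j⟩), hcard]
    omega
  have hc : ∀ M : Fin (2 * u + 2), ∑ i, y i =
      ∑ i ∈ univ.erase M, y i + w M + (y M - w M) := by
    intro M
    rw [← sum_erase_add univ y (mem_univ M)]
    ring
  -- `M = j`
  have bj : 2 * bad2 (univ.erase j) y (w j) (y j - w j) u ≤ (2 * u + 2) * (2 * u).choose u := by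
    have h := hTWO (Fin (2 * u + 2)) (univ.erase j) y (w j) (y j - w j) d u i (hcard j)
      (mem_erase.2 ⟨hij, mem_univ i⟩) hd hyi
      (fun l hl hli => hy0 l hli (mem_erase.1 hl).1) (by rw [hyj]; ring)
    calc 2 * bad2 (univ.erase j) y (w j) (y j - w j) u
        ≤ 2 * ((u + 1) * (2 * u).choose u) := Nat.mul_le_mul_left _ h
      _ = (2 * u + 2) * (2 * u).choose u := by ring
  -- `M ≠ j`
  have bM : ∀ M, M ≠ j →
      2 * bad2 (univ.erase M) y (w M) (y M - w M) u ≤ 2 * u * (2 * u).choose u := by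
    intro M hM
    have h := hONE2 (Fin (2 * u + 2)) (univ.erase M) y (w M) (y M - w M) (∑ i, y i) u
      (hcard M) (hc M) (by rw [hHM M hM])
    rw [hHM M hM, Nat.mul_mod_right, add_zero] at h
    exact h
  have hJJ : JJ u y = (2 * u + 1) * (2 * u + 1) := by
    unfold JJ
    rw [← add_sum_erase univ _ (mem_univ j), hHj,
      sum_congr rfl (fun M hM => hHM M (mem_erase.1 hM).1), sum_const, hcard, smul_eq_mul]
    ring
  have hBB : 2 * BB u y w ≤ ((2 * u + 1) * (2 * u) + (2 * u + 2)) * (2 * u).choose u := by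
    unfold BB
    rw [← add_sum_erase univ _ (mem_univ j), mul_add, mul_sum]
    have h1 : ∑ M ∈ univ.erase j, 2 * bad2 (univ.erase M) y (w M) (y M - w M) u ≤
        (2 * u + 1) * (2 * u * (2 * u).choose u) := by
      refine (sum_le_card_nsmul _ _ (2 * u * (2 * u).choose u)
        (fun M hM => bM M (mem_erase.1 hM).1)).trans (le_of_eq ?_)
      rw [hcard, smul_eq_mul]
    calc 2 * bad2 (univ.erase j) y (w j) (y j - w j) u +
          ∑ M ∈ univ.erase j, 2 * bad2 (univ.erase M) y (w M) (y M - w M) u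
        ≤ (2 * u + 2) * (2 * u).choose u + (2 * u + 1) * (2 * u * (2 * u).choose u) :=
          Nat.add_le_add bj h1
      _ = _ := by ring
  refine ⟨?_, hBB⟩
  rw [hJJ]
  refine hBB.trans (le_of_eq ?_)
  ring

end Pool.Agent.Work.MP_9999b5_m2
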