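import Pool.Agent.Work.MP_9999b5_m2.Interface

set_option autoImplicit false

namespace Pool.Agent.Work.MP_9999b5_m2

open Finset Pool.Agent.Work.MP_9999b5_mr

theorem AVZ_card (u : ℕ) (M : Fin (2 * u + 2)) :
    ((univ : Finset (Fin (2 * u + 2))).erase M).card = 2 * u + 1 := by
  rw [Finset.card_erase_of_mem (Finset.mem_univ M), Finset.card_univ, Fintype.card_fin]
  omega

theorem p_AVZ : Stmt_TRV → Stmt_AVZ := by
  intro hT u y w hy
  constructor
  · unfold JJ
    have h1 : ∑ i, y i = 0 := Finset.sum_eq_zero fun i _ => hy i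
    have h2 : ∀ M ∈ (univ : Finset (Fin (2 * u + 2))),
        (Hc (univ.erase M) y (∑ i, y i)).card = 2 * u + 1 := by
      intro M _
      have h3 : Hc (univ.erase M) y (∑ i, y i) = univ.erase M := by
        unfold Hc
        apply Finset.filter_true_of_mem
        intro z _
        rw [h1, hy z]
      rw [h3, AVZ_card]
    rw [Finset.sum_congr rfl h2, Finset.sum_const, Finset.card_univ, Fintype.card_fin,
      smul_eq_mul]
    ring
  · unfold BB
    have h2 : ∀ M ∈ (univ : Finset (Fin (2 * u + 2))),
        bad2 (univ.erase M) y (w M) (y M - w M) u ≤ (2 * u + 1) * (2 * u).choose u := by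
      intro M _
      exact hT (Fin (2 * u + 2)) (univ.erase M) y (w M) (y M - w M) u (AVZ_card u M)
    refine (Finset.sum_le_sum h2).trans (le_of_eq ?_)
    rw [Finset.sum_const, Finset.card_univ, Fintype.card_fin, smul_eq_mul]
    ring

end Pool.Agent.Work.MP_9999b5_m2
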