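import Pool.Agent.Work.MP_9999b5_m2.Interface
import Pool.Agent.Work.MP_9999b5_mr.B_FIN

/-!
Block FIN2 of `mm2_blocks` (MP_9999b5_co): the result for `T ∣ 2 k`, `n ≡ T` modulo `k`.
-/

set_option autoImplicit false

namespace Pool.Agent.Work.MP_9999b5_m2

open Finset Pool.Agent.Work.MP_9999b5_mr

/-- from `4k + T` to `n ≡ T` modulo `k`, `T < k` -/
theorem FIN2_core (k n T : ℕ) (hk : 1 ≤ k) (hn : 4 * k ≤ n) (hlt : T < k) (hm : n ≡ T [MOD k])
    (hW : Pool.Agent.Work.MaxSums.W k (4 * k + T) ((k : ℝ) / (4 * k + T)))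
    (ι : Type) [DecidableEq ι] (A : Finset ι) (x : ι → ℝ)
    (hA : A.card = n) (hinj : Set.InjOn x A) (hs : 0 ≤ ∑ i ∈ A, x i) :
    (n - 1).choose (k - 1) ≤ Pool.Agent.Work.MaxSums.pos x A k := by
  have hmod : n % k = T := by
    have := hm
    unfold Nat.ModEq at this
    rw [this, Nat.mod_eq_of_lt hlt]
  have hdiv := Nat.div_add_mod n k
  rw [hmod] at hdiv
  have h4 : 4 ≤ n / k := (Nat.le_div_iff_mul_le hk).2 hn
  obtain ⟨j, hj⟩ : ∃ j, n / k = 4 + j := ⟨n / k - 4, by omega⟩
  rw [hj] at hdiv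
  have hnj : 4 * k + T + j * k = n := by rw [← hdiv]; ring
  have h1 := FIN_rec k T hk hW j ι A x (by rw [hA, hnj]) hinj hs
  rw [hnj, FIN_choose k n hk (by omega)] at h1
  exact_mod_cast h1

theorem FIN2_pos (hL : MP_9999b5_mr.Stmt_LIF) (hL2 : Stmt_LIF2) (hR : MP_9999b5_mr.Stmt_RED)
    (k n T : ℕ) (hk : 1 ≤ k) (hn : 4 * k ≤ n)
    (hT : T ∣ 2 * k) (hm : n ≡ T [MOD k]) (ι : Type) [DecidableEq ι] (A : Finset ι) (x : ι → ℝ)
    (hA : A.card = n) (hinj : Set.InjOn x A) (hs : 0 ≤ ∑ i ∈ A, x i) :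
    (n - 1).choose (k - 1) ≤ Pool.Agent.Work.MaxSums.pos x A k := by
  have hT1 : 1 ≤ T := Nat.pos_of_dvd_of_pos hT (by omega)
  by_cases hTk : T ∣ k
  · exact FIN_pos hL hR k n T hk hn hTk hm ι A x hA hinj hs
  · obtain ⟨q, hq⟩ := hT
    rcases Nat.even_or_odd' q with ⟨c, hc | hc⟩
    · exfalso
      apply hTk
      refine ⟨c, ?_⟩
      subst hc
      have : 2 * k = 2 * (T * c) := by rw [hq]; ring
      omega
    · -- `2 k = T (2 c + 1)`
      rcases Nat.eq_zero_or_pos c with h0 | hc1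
      · -- `T = 2 k`
        subst h0
        have hTe : T = 2 * k := by rw [hq, hc]; ring
        have hdvd : k ∣ n := by
          have h0 : n ≡ 0 [MOD k] := by
            refine hm.trans ?_
            rw [hTe]
            simp [Nat.ModEq]
          exact (Nat.modEq_zero_iff_dvd).1 h0
        exact Pool.Agent.Work.MaxSums.helper84Div.pos_ge
          Pool.Agent.Work.MaxSums.helper93Recursion.holds k n hk hn hdvd A x hA hinj hs
      · have hev : Even T := by
          have h1 : Even (T * q) := by rw [← hq]; exact even_two_mul k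
          rcases Nat.even_mul.1 h1 with h | h
          · exact h
          · exfalso
            rw [hc] at h
            exact (Nat.not_even_iff_odd.2 ⟨c, rfl⟩) h
        obtain ⟨r, hr⟩ := hev
        have hr1 : 1 ≤ r := by omega
        have hTr : T = 2 * r := by omega
        have hkr : k = c * (2 * r) + r := by
          have h2 : 2 * k = 2 * (c * (2 * r) + r) := by
            rw [hq, hc, hTr]; ring
          omega
        have hlt : T < k := by
          have h3 : 2 * r ≤ c * (2 * r) := Nat.le_mul_of_pos_left _ hc1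
          omega
        have hL' := hL2 c r hc1 hr1
        rw [← hkr, ← hTr] at hL'
        have hW := hR k T hk hL'.1 hL'.2
        exact FIN2_core k n T hk hn hlt hm hW ι A x hA hinj hs

theorem p_FIN2 : MP_9999b5_mr.Stmt_LIF → Stmt_LIF2 → MP_9999b5_mr.Stmt_RED → Stmt_FIN2 := by
  intro hL hL2 hR k n T hk hn hT hm
  have hG : IsGreatest (Pool.Agent.Work.MaxSums.values k n) ((n - 1).choose k) := by
    refine Pool.Agent.Work.MaxSums.isGreatest_of k n hk (by omega) (fun A hA hs => ?_)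
    exact FIN2_pos hL hL2 hR k n T hk hn hT hm ℝ A (fun a => -a) hA
      (fun a _ b _ h => neg_injective h) (by rw [Finset.sum_neg_distrib, hs, neg_zero])
  exact ⟨hG, Pool.Agent.Work.MaxSums.Transfer.MMS_of_greatest hk (by omega) hG⟩

end Pool.Agent.Work.MP_9999b5_m2
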