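import Pool.Agent.Work.MP_9999b5_m2.Interface

/-!
# Block HED2: heavy edges with two offsets (helper79, after helper59's HED)
-/

set_option autoImplicit false

namespace Pool.Agent.Work.MP_9999b5_m2

open Finset Pool.Agent.Work.MP_9999b5_mr

theorem HED2_pos {ι : Type} [DecidableEq ι] (C : Finset ι) (x : ι → ℝ) (c a : ℝ) (k : ℕ) :
    (((Hc C x c).sigma (fun z => (C.erase z).powersetCard k)).filter
      (fun s => 0 < ∑ i ∈ s.2, x i + a)).card =
    ∑ j ∈ range ((Hc C x c).card + 1), Gj C (Hc C x c) x a k j * ((Hc C x c).card - j) := by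
  have h1 : (((Hc C x c).sigma (fun z => (C.erase z).powersetCard k)).filter
      (fun s => 0 < ∑ i ∈ s.2, x i + a)).card =
      (((C.powersetCard k).filter (fun B => 0 < ∑ i ∈ B, x i + a)).sigma
        (fun B => Hc C x c \ B)).card := by
    refine Finset.card_bij (fun s _ => (⟨s.2, s.1⟩ : Σ _ : Finset ι, ι)) ?_ ?_ ?_
    · rintro ⟨z, B⟩ h
      obtain ⟨h2, h3⟩ := Finset.mem_filter.1 h
      obtain ⟨hz, hB⟩ := Finset.mem_sigma.1 h2
      obtain ⟨hBs, hBk⟩ := Finset.mem_powersetCard.1 hB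
      refine Finset.mem_sigma.2 ⟨Finset.mem_filter.2 ⟨Finset.mem_powersetCard.2
        ⟨hBs.trans (Finset.erase_subset _ _), hBk⟩, h3⟩, Finset.mem_sdiff.2 ⟨hz, fun hzB => ?_⟩⟩
      exact Finset.notMem_erase z C (hBs hzB)
    · rintro ⟨z, B⟩ h ⟨z', B'⟩ h' he
      have e2 : (⟨B, z⟩ : Σ _ : Finset ι, ι) = ⟨B', z'⟩ := he
      simp only [Sigma.mk.injEq, heq_eq_eq] at e2
      obtain ⟨e3, e4⟩ := e2
      subst e3
      subst e4
      rfl
    · rintro ⟨B, z⟩ h
      obtain ⟨h2, h3⟩ := Finset.mem_sigma.1 h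
      obtain ⟨hB, h4⟩ := Finset.mem_filter.1 h2
      obtain ⟨hBs, hBk⟩ := Finset.mem_powersetCard.1 hB
      obtain ⟨hz, hzB⟩ := Finset.mem_sdiff.1 h3
      refine ⟨⟨z, B⟩, Finset.mem_filter.2 ⟨Finset.mem_sigma.2 ⟨hz,
        Finset.mem_powersetCard.2 ⟨fun i hi => Finset.mem_erase.2 ⟨?_, hBs hi⟩, hBk⟩⟩, h4⟩, rfl⟩
      rintro rfl
      exact hzB hi
  rw [h1, Finset.card_sigma]
  have h2 : ∀ B ∈ (C.powersetCard k).filter (fun B => 0 < ∑ i ∈ B, x i + a),
      (B ∩ Hc C x c).card ∈ range ((Hc C x c).card + 1) := by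
    intro B _
    rw [Finset.mem_range]
    have := Finset.card_le_card (Finset.inter_subset_right (s₁ := B) (s₂ := Hc C x c))
    omega
  rw [← Finset.sum_fiberwise_of_maps_to h2]
  refine Finset.sum_congr rfl fun j _ => ?_
  unfold Gj
  rw [Finset.sum_const_nat (m := (Hc C x c).card - j)]
  · congr 2
    ext B
    simp only [Finset.mem_filter]
    tauto
  · intro B hB
    have h3 := (Finset.mem_filter.1 hB).2
    rw [← h3, Finset.inter_comm]
    have h4 := Finset.card_sdiff_add_card_inter (Hc C x c) B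
    omega

theorem HED2_inv {ι : Type} [DecidableEq ι] (C : Finset ι) (x : ι → ℝ) (c b : ℝ) (k : ℕ)
    (hC : C.card = 2 * k + 1) :
    (((Hc C x c).sigma (fun z => (C.erase z).powersetCard k)).filter
      (fun s => 0 < ∑ i ∈ (C.erase s.1) \ s.2, x i + b)).card =
    (((Hc C x c).sigma (fun z => (C.erase z).powersetCard k)).filter
      (fun s => 0 < ∑ i ∈ s.2, x i + b)).card := by
  have key : ∀ z ∈ Hc C x c, ∀ B ∈ (C.erase z).powersetCard k,
      (C.erase z) \ B ∈ (C.erase z).powersetCard k ∧ (C.erase z) \ ((C.erase z) \ B) = B := by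
    intro z hz B hB
    obtain ⟨hzC, _⟩ := Finset.mem_filter.1 hz
    obtain ⟨hBs, hBk⟩ := Finset.mem_powersetCard.1 hB
    have hcard : (C.erase z).card = 2 * k := by
      rw [Finset.card_erase_of_mem hzC, hC, Nat.add_sub_cancel]
    refine ⟨Finset.mem_powersetCard.2 ⟨Finset.sdiff_subset, ?_⟩, Finset.sdiff_sdiff_eq_self hBs⟩
    rw [Finset.card_sdiff_of_subset hBs, hcard, hBk]
    omega
  refine Finset.card_bij (fun s _ => (⟨s.1, (C.erase s.1) \ s.2⟩ : Σ _ : ι, Finset ι)) ?_ ?_ ?_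
  · rintro ⟨z, B⟩ h
    obtain ⟨h2, h3⟩ := Finset.mem_filter.1 h
    obtain ⟨hz, hB⟩ := Finset.mem_sigma.1 h2
    exact Finset.mem_filter.2 ⟨Finset.mem_sigma.2 ⟨hz, (key z hz B hB).1⟩, h3⟩
  · rintro ⟨z, B⟩ h ⟨z', B'⟩ h' he
    obtain ⟨h2, h3⟩ := Finset.mem_filter.1 h
    obtain ⟨hz, hB⟩ := Finset.mem_sigma.1 h2
    obtain ⟨h2', h3'⟩ := Finset.mem_filter.1 h'
    obtain ⟨hz', hB'⟩ := Finset.mem_sigma.1 h2'
    have e2 : (⟨z, (C.erase z) \ B⟩ : Σ _ : ι, Finset ι) = ⟨z', (C.erase z') \ B'⟩ := he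
    simp only [Sigma.mk.injEq, heq_eq_eq] at e2
    obtain ⟨e3, e4⟩ := e2
    subst e3
    have e5 : B = B' := by
      rw [← (key z hz B hB).2, e4]
      exact (key z hz B' hB').2
    subst e5
    rfl
  · rintro ⟨z, B⟩ h
    obtain ⟨h2, h3⟩ := Finset.mem_filter.1 h
    obtain ⟨hz, hB⟩ := Finset.mem_sigma.1 h2
    have hk := key z hz B hB
    refine ⟨⟨z, (C.erase z) \ B⟩, Finset.mem_filter.2 ⟨Finset.mem_sigma.2 ⟨hz, hk.1⟩, ?_⟩, ?_⟩
    · show 0 < ∑ i ∈ (C.erase z) \ ((C.erase z) \ B), x i + b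
      rw [hk.2]
      exact h3
    · show (⟨z, (C.erase z) \ ((C.erase z) \ B)⟩ : Σ _ : ι, Finset ι) = ⟨z, B⟩
      rw [hk.2]

theorem HED2_bad {ι : Type} [DecidableEq ι] (C : Finset ι) (x : ι → ℝ) (a b c : ℝ) (k : ℕ)
    (hC : C.card = 2 * k + 1) (hc : c = ∑ i ∈ C, x i + a + b) :
    (((Hc C x c).sigma (fun z => (C.erase z).powersetCard k)).filter
      (fun s => ∑ i ∈ s.2, x i + a ≤ 0 ∧ ∑ i ∈ (C.erase s.1) \ s.2, x i + b ≤ 0)).card =
      bad2 C x a b k := by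
  unfold bad2
  refine Finset.card_bij (fun s _ => (s.2, (C.erase s.1) \ s.2)) ?_ ?_ ?_
  · rintro ⟨z, B⟩ h0
    obtain ⟨h, hb⟩ := Finset.mem_filter.1 h0
    rw [Finset.mem_sigma] at h
    obtain ⟨hz, hB⟩ := h
    obtain ⟨hzC, hzc⟩ := Finset.mem_filter.1 hz
    obtain ⟨hBs, hBk⟩ := Finset.mem_powersetCard.1 hB
    have hcard : (C.erase z).card = 2 * k := by
      rw [Finset.card_erase_of_mem hzC, hC, Nat.add_sub_cancel]
    refine Finset.mem_filter.2 ⟨?_, hb⟩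
    refine Finset.mem_filter.2 ⟨Finset.mem_product.2 ⟨?_, ?_⟩, ?_⟩
    · exact Finset.mem_powersetCard.2 ⟨hBs.trans (Finset.erase_subset _ _), hBk⟩
    · refine Finset.mem_powersetCard.2 ⟨Finset.sdiff_subset.trans (Finset.erase_subset _ _), ?_⟩
      rw [Finset.card_sdiff_of_subset hBs, hcard, hBk]
      omega
    · exact Finset.disjoint_sdiff
  · rintro ⟨z, B⟩ h0 ⟨z', B'⟩ h0' he
    have h := (Finset.mem_filter.1 h0).1
    have h' := (Finset.mem_filter.1 h0').1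
    rw [Finset.mem_sigma] at h h'
    obtain ⟨hz, hB⟩ := h
    obtain ⟨hz', hB'⟩ := h'
    obtain ⟨hzC, hzc⟩ := Finset.mem_filter.1 hz
    obtain ⟨hBs, hBk⟩ := Finset.mem_powersetCard.1 hB
    obtain ⟨hBs', hBk'⟩ := Finset.mem_powersetCard.1 hB'
    simp only [Prod.mk.injEq] at he
    obtain ⟨he1, he2⟩ := he
    subst he1
    have h4 : C.erase z = C.erase z' := by
      rw [← Finset.sdiff_union_of_subset hBs, he2, Finset.sdiff_union_of_subset hBs']
    have h5 : z = z' := by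
      by_contra hne
      have h6 : z ∈ C.erase z' := Finset.mem_erase.2 ⟨hne, hzC⟩
      rw [← h4] at h6
      exact Finset.notMem_erase z C h6
    subst h5
    rfl
  · rintro ⟨P, Q⟩ h
    obtain ⟨h2, h3⟩ := Finset.mem_filter.1 h
    obtain ⟨h4, h5⟩ := Finset.mem_filter.1 h2
    obtain ⟨hP, hQ⟩ := Finset.mem_product.1 h4
    obtain ⟨hPs, hPk⟩ := Finset.mem_powersetCard.1 hP
    obtain ⟨hQs, hQk⟩ := Finset.mem_powersetCard.1 hQ
    have hd : Disjoint P Q := h5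
    have hs : P ∪ Q ⊆ C := Finset.union_subset hPs hQs
    have hcu : (P ∪ Q).card = 2 * k := by
      rw [Finset.card_union_of_disjoint hd, hPk, hQk]; ring
    have hc1 : (C \ (P ∪ Q)).card = 1 := by
      rw [Finset.card_sdiff_of_subset hs, hC, hcu]
      omega
    obtain ⟨z, hz⟩ := Finset.card_eq_one.1 hc1
    have hz1 : z ∈ C \ (P ∪ Q) := by rw [hz]; exact Finset.mem_singleton_self z
    obtain ⟨hzC, hzn⟩ := Finset.mem_sdiff.1 hz1
    have he : C.erase z = P ∪ Q := by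
      rw [Finset.erase_eq, ← hz]
      exact Finset.sdiff_sdiff_eq_self hs
    obtain ⟨hs1, hs2⟩ := h3
    have hs1' : ∑ i ∈ P, x i + a ≤ 0 := hs1
    have hs2' : ∑ i ∈ Q, x i + b ≤ 0 := hs2
    have h6 := Finset.sum_erase_add C x hzC
    rw [he, Finset.sum_union hd] at h6
    have h7 : (C.erase z) \ P = Q := by
      rw [he, Finset.union_sdiff_cancel_left hd]
    refine ⟨⟨z, P⟩, ?_, ?_⟩
    · refine Finset.mem_filter.2 ⟨Finset.mem_sigma.2 ⟨Finset.mem_filter.2 ⟨hzC, ?_⟩, ?_⟩, hs1', ?_⟩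
      · linarith
      · refine Finset.mem_powersetCard.2 ⟨?_, hPk⟩
        rw [he]
        exact Finset.subset_union_left
      · show ∑ i ∈ (C.erase z) \ P, x i + b ≤ 0
        rw [h7]
        exact hs2'
    · show (P, (C.erase z) \ P) = (P, Q)
      rw [h7]

theorem p_HED2 : Stmt_HED2 := by
  intro ι _ C x a b c k hC hc
  have h1 : ((Hc C x c).sigma (fun z => (C.erase z).powersetCard k)).card =
      (Hc C x c).card * (2 * k).choose k := by
    rw [Finset.card_sigma]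
    refine Finset.sum_const_nat fun z hz => ?_
    rw [Finset.card_powersetCard, Finset.card_erase_of_mem (Finset.mem_filter.1 hz).1, hC,
      Nat.add_sub_cancel]
  rw [← h1, ← HED2_pos C x c a k, ← HED2_pos C x c b k, ← HED2_bad C x a b c k hC hc,
    ← HED2_inv C x c b k hC]
  have hsum : ∀ z ∈ Hc C x c, ∀ B ∈ (C.erase z).powersetCard k,
      ∑ i ∈ B, x i + a + (∑ i ∈ (C.erase z) \ B, x i + b) ≤ 0 := by
    intro z hz B hB
    obtain ⟨hzC, hzc⟩ := Finset.mem_filter.1 hz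
    obtain ⟨hBs, hBk⟩ := Finset.mem_powersetCard.1 hB
    have h2 := Finset.sum_sdiff (f := x) hBs
    have h3 := Finset.sum_erase_add C x hzC
    linarith
  set S := (Hc C x c).sigma (fun z => (C.erase z).powersetCard k) with hS
  have hSm : ∀ s ∈ S, ∑ i ∈ s.2, x i + a + (∑ i ∈ (C.erase s.1) \ s.2, x i + b) ≤ 0 := by
    rintro ⟨z, B⟩ ha
    obtain ⟨hz, hB⟩ := Finset.mem_sigma.1 ha
    exact hsum z hz B hB
  have e1 := Finset.card_filter_add_card_filter_not (s := S) (fun s => 0 < ∑ i ∈ s.2, x i + a)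
  have e2 := Finset.card_filter_add_card_filter_not
    (s := S.filter (fun s => ¬ 0 < ∑ i ∈ s.2, x i + a))
    (fun s => 0 < ∑ i ∈ (C.erase s.1) \ s.2, x i + b)
  have e3 : (S.filter (fun s => ¬ 0 < ∑ i ∈ s.2, x i + a)).filter
      (fun s => 0 < ∑ i ∈ (C.erase s.1) \ s.2, x i + b) =
      S.filter (fun s => 0 < ∑ i ∈ (C.erase s.1) \ s.2, x i + b) := by
    ext s
    simp only [Finset.mem_filter]
    constructor
    · rintro ⟨⟨h2, _⟩, h4⟩
      exact ⟨h2, h4⟩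
    · rintro ⟨h2, h4⟩
      refine ⟨⟨h2, ?_⟩, h4⟩
      have := hSm s h2
      linarith
  have e4 : (S.filter (fun s => ¬ 0 < ∑ i ∈ s.2, x i + a)).filter
      (fun s => ¬ 0 < ∑ i ∈ (C.erase s.1) \ s.2, x i + b) =
      S.filter (fun s => ∑ i ∈ s.2, x i + a ≤ 0 ∧ ∑ i ∈ (C.erase s.1) \ s.2, x i + b ≤ 0) := by
    ext s
    simp only [Finset.mem_filter, not_lt]
    tauto
  rw [e3, e4] at e2
  omega

end Pool.Agent.Work.MP_9999b5_m2
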