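import Pool.Agent.Work.MP_9999b5_m2.Interface

set_option autoImplicit false

namespace Pool.Agent.Work.MP_9999b5_m2

open Finset Pool.Agent.Work.MP_9999b5_mr

open Classical in
theorem LIF2_pt (hE : Stmt_AVE) (hZ : Stmt_AVZ) (hT : Stmt_AVT) (u : ℕ) (hu : 1 ≤ u)
    (y w : Fin (2 * u + 2) → ℝ) (hb : 0 ≤ ∑ j, y j) :
    (2 * BB u y w + 2 * u * (2 * u).choose u * (if Tw u y then 1 else 0) ≤
      JJ u y * (2 * u).choose u + (2 * u + 1) * (2 * u).choose u +
        (2 * u + 1) * (2 * u + 1) * (2 * u).choose u * (if ∀ j, y j = 0 then 1 else 0)) ∧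
    (2 * BB u y w + 2 * u * (2 * u).choose u * (if Tw u y then 1 else 0) ≤
      (2 * u + 1) * (2 * u + 2) * (2 * u).choose u +
        (2 * u + 1) * (2 * u + 2) * (2 * u).choose u * (if ∀ j, y j = 0 then 1 else 0)) := by
  by_cases h0 : ∀ j, y j = 0
  · have hnt : ¬ Tw u y := by
      rintro ⟨i, j, d, _, hd, hi, _, _⟩
      rw [h0 i] at hi
      linarith
    obtain ⟨h1, h2⟩ := hZ u y w h0
    rw [if_pos h0, if_neg hnt, h1]
    constructor
    · nlinarith
    · nlinarith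
  · rw [if_neg h0]
    by_cases ht : Tw u y
    · obtain ⟨h1, h2⟩ := hT u y w hu ht
      rw [if_pos ht]
      constructor
      · nlinarith
      · nlinarith
    · have hne : ∃ i, y i ≠ 0 := by
        push Not at h0
        exact h0
      obtain ⟨h1, h2⟩ := hE u y w hu hb hne
      rw [if_neg ht]
      constructor
      · nlinarith
      · nlinarith

theorem LIF2_arith (N b h p M X t z u r : ℕ) (hN : 0 < N) (hu : 1 ≤ u)
    (hz : z * ((u + 1) * (2 * u + 1)) ≤ t) (h3 : M * ((2 * u + 2) * (X * (2 * u + 1))) = N * p)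
    (hq : 2 * (N * b) + 2 * u * X * t ≤
      N * h + M * ((2 * u + 1) * X) + (2 * u + 1) * (2 * u + 1) * X * z)
    (hh : 2 * (N * b) + 2 * u * X * t ≤
      M * ((2 * u + 1) * (2 * u + 2) * X) + (2 * u + 1) * (2 * u + 2) * X * z) :
    (2 * (u * (2 * r) + r) + 2 * r) * (2 * b) ≤
      (2 * (u * (2 * r) + r) + 2 * r) * h + 2 * r * p ∧ 2 * b ≤ p := by
  have hu1 : (2 * u + 1) * (2 * u + 1) ≤ 2 * u * ((u + 1) * (2 * u + 1)) := by nlinarith
  have hu2 : (2 * u + 1) * (2 * u + 2) ≤ 2 * u * ((u + 1) * (2 * u + 1)) := by nlinarith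
  have hz1 : (2 * u + 1) * (2 * u + 1) * z ≤ 2 * u * t := by
    calc (2 * u + 1) * (2 * u + 1) * z ≤ 2 * u * ((u + 1) * (2 * u + 1)) * z :=
          Nat.mul_le_mul_right z hu1
      _ = 2 * u * (z * ((u + 1) * (2 * u + 1))) := by ring
      _ ≤ 2 * u * t := Nat.mul_le_mul_left _ hz
  have hz2 : (2 * u + 1) * (2 * u + 2) * z ≤ 2 * u * t := by
    calc (2 * u + 1) * (2 * u + 2) * z ≤ 2 * u * ((u + 1) * (2 * u + 1)) * z :=
          Nat.mul_le_mul_right z hu2
      _ = 2 * u * (z * ((u + 1) * (2 * u + 1))) := by ring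
      _ ≤ 2 * u * t := Nat.mul_le_mul_left _ hz
  have hz3 : X * ((2 * u + 1) * (2 * u + 1) * z) ≤ X * (2 * u * t) := Nat.mul_le_mul_left X hz1
  have hz4 : X * ((2 * u + 1) * (2 * u + 2) * z) ≤ X * (2 * u * t) := Nat.mul_le_mul_left X hz2
  have e0 : 2 * u * X * t = X * (2 * u * t) := by ring
  have e1 : (2 * u + 1) * (2 * u + 1) * X * z = X * ((2 * u + 1) * (2 * u + 1) * z) := by ring
  have e2 : (2 * u + 1) * (2 * u + 2) * X * z = X * ((2 * u + 1) * (2 * u + 2) * z) := by ring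
  have e3 : M * ((2 * u + 1) * (2 * u + 2) * X) = M * ((2 * u + 2) * (X * (2 * u + 1))) := by ring
  rw [e0, e1] at hq
  rw [e0, e2, e3, h3] at hh
  have hq' : 2 * (N * b) ≤ N * h + M * ((2 * u + 1) * X) := by omega
  have hh' : 2 * (N * b) ≤ N * p := by omega
  constructor
  · apply Nat.le_of_mul_le_mul_left _ hN
    have h6 : N * ((2 * (u * (2 * r) + r) + 2 * r) * (2 * b)) =
        (2 * (u * (2 * r) + r) + 2 * r) * (2 * (N * b)) := by ring
    have h7 : N * ((2 * (u * (2 * r) + r) + 2 * r) * h + 2 * r * p) =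
        (2 * (u * (2 * r) + r) + 2 * r) * (N * h + M * ((2 * u + 1) * X)) := by
      have e4 : N * ((2 * (u * (2 * r) + r) + 2 * r) * h + 2 * r * p) =
        (2 * (u * (2 * r) + r) + 2 * r) * (N * h) + 2 * r * (N * p) := by ring
      rw [e4, ← h3]
      ring
    rw [h6, h7]
    exact Nat.mul_le_mul_left _ hq'
  · apply Nat.le_of_mul_le_mul_left _ hN
    have e5 : N * (2 * b) = 2 * (N * b) := by ring
    rw [e5]
    exact hh'

theorem LIF2_main (hP : Stmt_PAC) (hE : Stmt_AVE) (hAZ : Stmt_AVZ) (hAT : Stmt_AVT)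
    (hS : Stmt_SUM2) (hR : Stmt_ORB2) (hK : Stmt_HCK) (hZ : Stmt_ZER2) (u r : ℕ) (hu : 1 ≤ u)
    (hr : 1 ≤ r) (ι : Type) [DecidableEq ι] (C : Finset ι) (x : ι → ℝ)
    (hC : C.card = 2 * (u * (2 * r) + r) + 2 * r)
    (hinj : Set.InjOn x C) (hc : 0 ≤ ∑ i ∈ C, x i) :
    (2 * (u * (2 * r) + r) + 2 * r) * (2 * bad C x (u * (2 * r) + r)) ≤
      (2 * (u * (2 * r) + r) + 2 * r) * hvy C x (u * (2 * r) + r) +
        2 * r * (prs C (u * (2 * r) + r)).card ∧
    2 * bad C x (u * (2 * r) + r) ≤ (prs C (u * (2 * r) + r)).card := by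
  have hC' : C.card = (2 * u + 2) * (2 * r) := by rw [hC]; ring
  obtain ⟨N, hN, hF⟩ := hR ι C u r hC'
  have hcard : ∀ M : Fin (2 * u + 2), (univ.erase M).card = 2 * u + 1 := by
    intro M
    rw [Finset.card_erase_of_mem (mem_univ M), Finset.card_univ, Fintype.card_fin]
    omega
  have hmem : ∀ (M : Fin (2 * u + 2)) (p : Finset (Fin (2 * u + 2)) × Finset (Fin (2 * u + 2))),
      p ∈ prs (univ.erase M) u → M ∉ p.1 ∧ M ∉ p.2 := by
    intro M p hp
    unfold prs at hp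
    rw [mem_filter, mem_product] at hp
    have h1 := (mem_powersetCard.mp hp.1.1).1
    have h2 := (mem_powersetCard.mp hp.1.2).1
    exact ⟨fun h => (mem_erase.mp (h1 h)).1 rfl, fun h => (mem_erase.mp (h2 h)).1 rfl⟩
  have h1 : ∑ e : Fin (2 * u + 2) × Fin (2 * r) ≃ {i // i ∈ C},
      BB u (sm C x u r e) (sh C x u r e) = N * bad C x (u * (2 * r) + r) := by
    have h := hF (fun P Q => if (∑ i ∈ P, x i ≤ 0 ∧ ∑ i ∈ Q, x i ≤ 0) then 1 else 0)
    unfold bad
    rw [Finset.card_filter, ← h]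
    apply Finset.sum_congr rfl
    intro e _
    unfold BB
    apply Finset.sum_congr rfl
    intro M _
    unfold bad2
    rw [Finset.card_filter]
    apply Finset.sum_congr rfl
    intro p hp
    obtain ⟨hp1, hp2⟩ := hmem M p hp
    rw [((hS ι C x u r e).2 M p.1 hp1).1, ((hS ι C x u r e).2 M p.2 hp2).2.1]
  have h2 : ∑ e : Fin (2 * u + 2) × Fin (2 * r) ≃ {i // i ∈ C},
      JJ u (sm C x u r e) * (2 * u).choose u = N * hvy C x (u * (2 * r) + r) := by
    have h := hF (fun P Q => if (∑ i ∈ P, x i + ∑ i ∈ Q, x i ≤ 0) then 1 else 0)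
    unfold hvy
    rw [Finset.card_filter, ← h]
    apply Finset.sum_congr rfl
    intro e _
    unfold JJ
    rw [Finset.sum_mul]
    apply Finset.sum_congr rfl
    intro M _
    rw [← hK u (sm C x u r e) M, Finset.card_filter]
    apply Finset.sum_congr rfl
    intro p hp
    obtain ⟨hp1, hp2⟩ := hmem M p hp
    rw [((hS ι C x u r e).2 M p.1 hp1).1, ((hS ι C x u r e).2 M p.2 hp2).2.1]
    have e1 : ∑ i ∈ p.1, sm C x u r e i + sh C x u r e M +
        (∑ i ∈ p.2, sm C x u r e i + (sm C x u r e M - sh C x u r e M)) =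
        ∑ i ∈ p.1, sm C x u r e i + ∑ i ∈ p.2, sm C x u r e i + sm C x u r e M := by ring
    rw [e1]
  have h3 : ∑ _e : Fin (2 * u + 2) × Fin (2 * r) ≃ {i // i ∈ C},
      (2 * u + 2) * ((2 * u).choose u * (2 * u + 1)) = N * (prs C (u * (2 * r) + r)).card := by
    have h := hF (fun _ _ => 1)
    rw [Finset.card_eq_sum_ones, ← h]
    apply Finset.sum_congr rfl
    intro e _
    have h5 : ∀ M ∈ (univ : Finset (Fin (2 * u + 2))), ∑ _p ∈ prs (univ.erase M) u, 1 =
        (2 * u).choose u * (2 * u + 1) := by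
      intro M _
      rw [← Finset.card_eq_sum_ones, (hP _ (univ.erase M) (sm C x u r e) u).1, hcard M,
        Nat.choose_succ_self_right]
    rw [Finset.sum_congr rfl h5, Finset.sum_const, Finset.card_univ, Fintype.card_fin, smul_eq_mul]
  have hpt : ∀ e : Fin (2 * u + 2) × Fin (2 * r) ≃ {i // i ∈ C}, 0 ≤ ∑ j, sm C x u r e j := by
    intro e
    rw [(hS ι C x u r e).1]
    exact hc
  classical
  have hz : (univ.filter (fun e : Fin (2 * u + 2) × Fin (2 * r) ≃ {i // i ∈ C} =>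
      ∀ j, sm C x u r e j = 0)).card * ((u + 1) * (2 * u + 1)) ≤
    (univ.filter (fun e : Fin (2 * u + 2) × Fin (2 * r) ≃ {i // i ∈ C} =>
      Tw u (sm C x u r e))).card := by
    by_cases hc0 : ∑ i ∈ C, x i = 0
    · exact hZ ι C x u r hC' hr hinj hc0
    · have : (univ.filter (fun e : Fin (2 * u + 2) × Fin (2 * r) ≃ {i // i ∈ C} =>
          ∀ j, sm C x u r e j = 0)) = ∅ := by
        apply Finset.filter_false_of_mem
        intro e _ hall
        apply hc0
        rw [← (hS ι C x u r e).1]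
        apply Finset.sum_eq_zero
        intro j _
        exact hall j
      rw [this]
      simp
  have hq := Finset.sum_le_sum
    (s := (univ : Finset (Fin (2 * u + 2) × Fin (2 * r) ≃ {i // i ∈ C})))
    (fun e _ => (LIF2_pt hE hAZ hAT u hu (sm C x u r e) (sh C x u r e) (hpt e)).1)
  have hh := Finset.sum_le_sum
    (s := (univ : Finset (Fin (2 * u + 2) × Fin (2 * r) ≃ {i // i ∈ C})))
    (fun e _ => (LIF2_pt hE hAZ hAT u hu (sm C x u r e) (sh C x u r e) (hpt e)).2)
  rw [Finset.sum_add_distrib, Finset.sum_add_distrib, Finset.sum_add_distrib, ← Finset.mul_sum,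
    ← Finset.mul_sum, ← Finset.mul_sum, ← Finset.mul_sum, ← Finset.card_filter,
    ← Finset.card_filter, h1, h2, Finset.sum_const, smul_eq_mul] at hq
  rw [Finset.sum_add_distrib, Finset.sum_add_distrib, ← Finset.mul_sum, ← Finset.mul_sum,
    ← Finset.mul_sum, ← Finset.mul_sum, ← Finset.card_filter, ← Finset.card_filter, h1,
    Finset.sum_const, smul_eq_mul] at hh
  rw [Finset.sum_const, smul_eq_mul] at h3
  generalize (univ.filter (fun e : Fin (2 * u + 2) × Fin (2 * r) ≃ {i // i ∈ C} =>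
      ∀ j, sm C x u r e j = 0)).card = z at hz hq hh
  generalize (univ.filter (fun e : Fin (2 * u + 2) × Fin (2 * r) ≃ {i // i ∈ C} =>
      Tw u (sm C x u r e))).card = t at hz hq hh
  generalize (univ : Finset (Fin (2 * u + 2) × Fin (2 * r) ≃ {i // i ∈ C})).card = M at hq hh h3
  generalize (2 * u).choose u = X at hq hh h3
  generalize bad C x (u * (2 * r) + r) = b at hq hh ⊢
  generalize hvy C x (u * (2 * r) + r) = h at hq ⊢
  generalize (prs C (u * (2 * r) + r)).card = p at h3 ⊢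
  have hq2 : 2 * (N * b) + 2 * u * X * t ≤
      N * h + M * ((2 * u + 1) * X) + (2 * u + 1) * (2 * u + 1) * X * z := by
    have e1 : M * ((2 * u + 1) * X) = (2 * u + 1) * (M * X) := by ring
    rw [e1]
    exact hq
  have hh2 : 2 * (N * b) + 2 * u * X * t ≤
      M * ((2 * u + 1) * (2 * u + 2) * X) + (2 * u + 1) * (2 * u + 2) * X * z := by
    have e1 : M * ((2 * u + 1) * (2 * u + 2) * X) = (2 * u + 1) * (2 * u + 2) * (M * X) := by ring
    rw [e1]
    exact hh
  exact LIF2_arith N b h p M X t z u r hN hu hz h3 hq2 hh2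

theorem p_LIF2 (hP : Stmt_PAC) (hE : Stmt_AVE) (hAZ : Stmt_AVZ) (hAT : Stmt_AVT)
    (hS : Stmt_SUM2) (hR : Stmt_ORB2) (hK : Stmt_HCK) (hZ : Stmt_ZER2) : Stmt_LIF2 := by
  intro u r hu hr
  refine ⟨?_, ?_⟩
  · intro ι _ C x hC hinj hc
    exact (LIF2_main hP hE hAZ hAT hS hR hK hZ u r hu hr ι C x hC hinj hc).1
  · intro ι _ C x hC hinj hc
    exact (LIF2_main hP hE hAZ hAT hS hR hK hZ u r hu hr ι C x hC hinj hc).2

end Pool.Agent.Work.MP_9999b5_m2
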