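import Pool.Agent.Work.MP_9999b5_m2.Interface
import Pool.Agent.Work.MP_9999b5_mr.B_ORB

/-!
Block ORB2 (helper37): the symmetric group acts transitively on the pairs of disjoint sets; orders, the block that is
cut, and a pair of sets of blocks.
-/

set_option autoImplicit false

namespace Pool.Agent.Work.MP_9999b5_m2

open Finset Pool.Agent.Work.MP_9999b5_mr

/-- the image of a set of indices -/
def ORB2_im {ι β : Type} [DecidableEq ι] (C : Finset ι) (e : β ≃ {i // i ∈ C}) (I : Finset β) :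
    Finset ι := I.image (fun q => (e q : ι))

lemma ORB2_mem {ι β : Type} [DecidableEq ι] {C : Finset ι} {e : β ≃ {i // i ∈ C}} {I : Finset β}
    (i : {i // i ∈ C}) : (i : ι) ∈ ORB2_im C e I ↔ e.symm i ∈ I := by
  unfold ORB2_im
  rw [mem_image]
  constructor
  · rintro ⟨q, hq, hqi⟩
    have : e q = i := Subtype.ext hqi
    rw [← this, Equiv.symm_apply_apply]
    exact hq
  · intro h
    exact ⟨e.symm i, h, by rw [Equiv.apply_symm_apply]⟩

lemma ORB2_sub {ι β : Type} [DecidableEq ι] {C : Finset ι} {e : β ≃ {i // i ∈ C}}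
    {I : Finset β} : ORB2_im C e I ⊆ C := by
  intro i hi
  unfold ORB2_im at hi
  rw [mem_image] at hi
  obtain ⟨q, _, rfl⟩ := hi
  exact (e q).2

lemma ORB2_eq {ι β : Type} [DecidableEq ι] {C : Finset ι} {e : β ≃ {i // i ∈ C}}
    {I : Finset β} {P : Finset ι} (hP : P ⊆ C) :
    ORB2_im C e I = P ↔ ∀ i : {i // i ∈ C}, e.symm i ∈ I ↔ (i : ι) ∈ P := by
  constructor
  · intro h i
    rw [← h, ORB2_mem]
  · intro h
    ext i
    constructor
    · intro hi
      have hiC := ORB2_sub hi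
      exact (h ⟨i, hiC⟩).1 ((ORB2_mem ⟨i, hiC⟩).1 hi)
    · intro hi
      exact (ORB2_mem ⟨i, hP hi⟩).2 ((h ⟨i, hP hi⟩).2 hi)

lemma ORB2_trans {ι β : Type} [DecidableEq ι] {C : Finset ι} {e : β ≃ {i // i ∈ C}}
    {I : Finset β} {P P' : Finset ι} (hP : P ⊆ C) (hP' : P' ⊆ C) {π : Equiv.Perm {i // i ∈ C}}
    (hπ : ∀ i : {i // i ∈ C}, ((π i : ι) ∈ P' ↔ (i : ι) ∈ P)) (h : ORB2_im C e I = P) :
    ORB2_im C (e.trans π) I = P' := by
  rw [ORB2_eq hP] at h
  rw [ORB2_eq hP']
  intro i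
  have h1 : (e.trans π).symm i = e.symm (π.symm i) := rfl
  rw [h1, h (π.symm i), ← hπ (π.symm i), Equiv.apply_symm_apply]

/-- the index set of a part -/
def ORB2_ix (u r : ℕ) (J : Finset (Fin (2 * u + 2))) (M : Fin (2 * u + 2)) (f : Bool) :
    Finset (Fin (2 * u + 2) × Fin (2 * r)) :=
  J ×ˢ (univ : Finset (Fin (2 * r))) ∪
    (univ.filter (fun t : Fin (2 * r) => decide ((t : ℕ) < r) = f)).image (fun t => (M, t))

lemma ORB2_form {ι : Type} [DecidableEq ι] {C : Finset ι} {u r : ℕ}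
    {e : Fin (2 * u + 2) × Fin (2 * r) ≃ {i // i ∈ C}} {J : Finset (Fin (2 * u + 2))}
    {M : Fin (2 * u + 2)} {f : Bool} :
    bl C u r e J ∪ hf C u r e M f = ORB2_im C e (ORB2_ix u r J M f) := by
  unfold bl hf ORB2_im ORB2_ix
  rw [image_union, image_image]
  rfl

lemma ORB2_disj {u r : ℕ} {J J' : Finset (Fin (2 * u + 2))} {M : Fin (2 * u + 2)}
    (hJ : M ∉ J) (hJ' : M ∉ J') (hd : Disjoint J J') :
    Disjoint (ORB2_ix u r J M true) (ORB2_ix u r J' M false) := by
  rw [Finset.disjoint_left]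
  rintro ⟨j, t⟩ h1 h2
  unfold ORB2_ix at h1 h2
  rw [mem_union, mem_product, mem_image] at h1 h2
  rcases h1 with h1 | ⟨t1, ht1, h1⟩ <;> rcases h2 with h2 | ⟨t2, ht2, h2⟩
  · exact (Finset.disjoint_left.1 hd) h1.1 h2.1
  · rw [Prod.mk.injEq] at h2
    rw [← h2.1] at h1
    exact hJ h1.1
  · rw [Prod.mk.injEq] at h1
    rw [← h1.1] at h2
    exact hJ' h2.1
  · rw [Prod.mk.injEq] at h1 h2
    have h3 := (mem_filter.1 ht1).2
    have h4 := (mem_filter.1 ht2).2
    rw [h1.2] at h3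
    rw [h2.2] at h4
    rw [h3] at h4
    exact Bool.noConfusion h4

theorem p_ORB2 (hS : Stmt_SUM2) : Stmt_ORB2 := by
  classical
  intro ι _ C u r hC
  set D : Finset (Σ _ : Fin (2 * u + 2), Finset (Fin (2 * u + 2)) × Finset (Fin (2 * u + 2))) :=
    (univ : Finset (Fin (2 * u + 2))).sigma (fun M => prs (univ.erase M) u) with hD
  set E : Finset ((Fin (2 * u + 2) × Fin (2 * r) ≃ {i // i ∈ C}) ×
      (Σ _ : Fin (2 * u + 2), Finset (Fin (2 * u + 2)) × Finset (Fin (2 * u + 2)))) :=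
    univ ×ˢ D with hE
  set g : (Fin (2 * u + 2) × Fin (2 * r) ≃ {i // i ∈ C}) ×
      (Σ _ : Fin (2 * u + 2), Finset (Fin (2 * u + 2)) × Finset (Fin (2 * u + 2))) →
      Finset ι × Finset ι :=
    fun x => (bl C u r x.1 x.2.2.1 ∪ hf C u r x.1 x.2.1 true,
      bl C u r x.1 x.2.2.2 ∪ hf C u r x.1 x.2.1 false) with hg
  -- the pairs of parts are pairs
  have hmaps : ∀ x ∈ E, g x ∈ prs C (u * (2 * r) + r) := by
    rintro ⟨e, ⟨M, p⟩⟩ hx
    rw [hE, mem_product, hD, mem_sigma] at hx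
    have hp := hx.2.2
    simp only at hp
    have hg1 : g (e, ⟨M, p⟩) = (bl C u r e p.1 ∪ hf C u r e M true,
      bl C u r e p.2 ∪ hf C u r e M false) := rfl
    rw [hg1]
    unfold prs at hp ⊢
    rw [mem_filter, mem_product, mem_powersetCard, mem_powersetCard] at hp
    obtain ⟨⟨⟨a1, a2⟩, ⟨a3, a4⟩⟩, a5⟩ := hp
    have m1 : M ∉ p.1 := fun h => (mem_erase.1 (a1 h)).1 rfl
    have m2 : M ∉ p.2 := fun h => (mem_erase.1 (a3 h)).1 rfl
    rw [mem_filter, mem_product, mem_powersetCard, mem_powersetCard]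
    refine ⟨⟨⟨?_, ?_⟩, ⟨?_, ?_⟩⟩, ?_⟩
    · rw [ORB2_form (e := e) (J := p.1) (M := M) (f := true)]; exact ORB2_sub
    · exact (((hS ι C (fun _ => 0) u r e).2 M p.1 m1).2.2 true).trans (by rw [a2])
    · rw [ORB2_form (e := e) (J := p.2) (M := M) (f := false)]; exact ORB2_sub
    · exact (((hS ι C (fun _ => 0) u r e).2 M p.2 m2).2.2 false).trans (by rw [a4])
    · simp only
      rw [ORB2_form (e := e) (J := p.1) (M := M) (f := true),
        ORB2_form (e := e) (J := p.2) (M := M) (f := false), Finset.disjoint_left]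
      intro i h1 h2
      have hiC : i ∈ C := ORB2_sub h1
      have h3 := (ORB2_mem (e := e) ⟨i, hiC⟩).1 h1
      have h4 := (ORB2_mem (e := e) ⟨i, hiC⟩).1 h2
      exact (Finset.disjoint_left.1 (ORB2_disj m1 m2 a5)) h3 h4
  -- the fibres have the same size
  have hle : ∀ P ∈ prs C (u * (2 * r) + r), ∀ P' ∈ prs C (u * (2 * r) + r),
      (E.filter (fun x => g x = P)).card ≤ (E.filter (fun x => g x = P')).card := by
    intro P hP P' hP'
    unfold prs at hP hP'
    rw [mem_filter, mem_product, mem_powersetCard, mem_powersetCard] at hP hP'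
    obtain ⟨⟨⟨a1, a2⟩, ⟨a3, a4⟩⟩, a5⟩ := hP
    obtain ⟨⟨⟨b1, b2⟩, ⟨b3, b4⟩⟩, b5⟩ := hP'
    have hcard : ∀ Q : Finset ι, Q ⊆ C →
        (univ.filter (fun i : {i // i ∈ C} => (i : ι) ∈ Q)).card = Q.card := by
      intro Q hQ
      refine Finset.card_bij (fun i _ => (i : ι)) (fun i hi => (mem_filter.1 hi).2)
        (fun i _ j _ h => Subtype.ext h) (fun i hi => ⟨⟨i, hQ hi⟩, ?_, rfl⟩)
      exact mem_filter.2 ⟨mem_univ _, hi⟩
    obtain ⟨π, hπ1, hπ2⟩ := ORB_perm
      (A := univ.filter (fun i : {i // i ∈ C} => (i : ι) ∈ P.1))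
      (B := univ.filter (fun i : {i // i ∈ C} => (i : ι) ∈ P.2))
      (A' := univ.filter (fun i : {i // i ∈ C} => (i : ι) ∈ P'.1))
      (B' := univ.filter (fun i : {i // i ∈ C} => (i : ι) ∈ P'.2))
      (by
        rw [Finset.disjoint_left]
        intro i h1 h2
        exact (Finset.disjoint_left.1 a5) (mem_filter.1 h1).2 (mem_filter.1 h2).2)
      (by
        rw [Finset.disjoint_left]
        intro i h1 h2
        exact (Finset.disjoint_left.1 b5) (mem_filter.1 h1).2 (mem_filter.1 h2).2)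
      (by rw [hcard _ a1, hcard _ b1, a2, b2]) (by rw [hcard _ a3, hcard _ b3, a4, b4])
    simp only [mem_filter, mem_univ, true_and] at hπ1 hπ2
    refine Finset.card_le_card_of_injOn (fun x => (x.1.trans π, x.2)) ?_ ?_
    · rintro ⟨e, ⟨M, p⟩⟩ hx
      rw [mem_coe, mem_filter] at hx
      rw [mem_coe, mem_filter]
      obtain ⟨h1, h2⟩ := hx
      have h3 : bl C u r e p.1 ∪ hf C u r e M true = P.1 := congrArg Prod.fst h2
      have h4 : bl C u r e p.2 ∪ hf C u r e M false = P.2 := congrArg Prod.snd h2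
      rw [ORB2_form] at h3 h4
      refine ⟨?_, ?_⟩
      · rw [hE, mem_product] at h1 ⊢
        exact ⟨mem_univ _, h1.2⟩
      · refine Prod.ext ?_ ?_
        · have h5 : (g (e.trans π, ⟨M, p⟩)).1 =
              bl C u r (e.trans π) p.1 ∪ hf C u r (e.trans π) M true := rfl
          rw [h5, ORB2_form]
          exact ORB2_trans a1 b1 hπ1 h3
        · have h5 : (g (e.trans π, ⟨M, p⟩)).2 =
              bl C u r (e.trans π) p.2 ∪ hf C u r (e.trans π) M false := rfl
          rw [h5, ORB2_form]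
          exact ORB2_trans a3 b3 hπ2 h4
    · rintro ⟨e, p⟩ _ ⟨e', p'⟩ _ h
      have h1 : e.trans π = e'.trans π := congrArg Prod.fst h
      have h2 : p = p' := congrArg Prod.snd h
      have h3 : e = e' := by
        ext x
        have := congrArg (fun f => π.symm (f x)) h1
        simpa using congrArg Subtype.val this
      rw [h2, h3]
  -- there is a point
  have hex : E.Nonempty := by
    have hcC : Fintype.card (Fin (2 * u + 2) × Fin (2 * r)) = Fintype.card {i // i ∈ C} := by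
      rw [Fintype.card_prod, Fintype.card_fin, Fintype.card_fin, Fintype.card_coe, hC]
    have hc0 : ((univ : Finset (Fin (2 * u + 2))).erase 0).card = 2 * u + 1 := by
      rw [card_erase_of_mem (mem_univ _), card_univ, Fintype.card_fin]
      omega
    obtain ⟨U, hU1, hU2⟩ := Finset.exists_subset_card_eq
      (s := (univ : Finset (Fin (2 * u + 2))).erase 0) (n := u) (by rw [hc0]; omega)
    obtain ⟨V, hV1, hV2⟩ := Finset.exists_subset_card_eq
      (s := ((univ : Finset (Fin (2 * u + 2))).erase 0) \ U) (n := u)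
      (by rw [card_sdiff_of_subset hU1, hc0, hU2]; omega)
    refine ⟨(Fintype.equivOfCardEq hcC, ⟨0, (U, V)⟩), ?_⟩
    rw [hE, mem_product, hD, mem_sigma]
    refine ⟨mem_univ _, mem_univ _, ?_⟩
    simp only
    unfold prs
    rw [mem_filter, mem_product, mem_powersetCard, mem_powersetCard]
    refine ⟨⟨⟨hU1, hU2⟩, ⟨hV1.trans sdiff_subset, hV2⟩⟩, ?_⟩
    exact (Finset.disjoint_of_subset_right hV1 disjoint_sdiff)
  obtain ⟨x0, hx0⟩ := hex
  refine ⟨(E.filter (fun x => g x = g x0)).card, ?_, ?_⟩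
  · exact Finset.card_pos.2 ⟨x0, mem_filter.2 ⟨hx0, rfl⟩⟩
  · intro F
    have h1 : ∑ e : Fin (2 * u + 2) × Fin (2 * r) ≃ {i // i ∈ C}, ∑ M : Fin (2 * u + 2),
        ∑ p ∈ prs (univ.erase M) u,
          F (bl C u r e p.1 ∪ hf C u r e M true) (bl C u r e p.2 ∪ hf C u r e M false) =
        ∑ x ∈ E, F (g x).1 (g x).2 := by
      rw [hE, Finset.sum_product, hD]
      refine Finset.sum_congr rfl (fun e _ => ?_)
      rw [Finset.sum_sigma]
    rw [h1, ← Finset.sum_fiberwise_of_maps_to hmaps, Finset.mul_sum]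
    refine Finset.sum_congr rfl (fun P hP => ?_)
    have h2 : (E.filter (fun x => g x = P)).card = (E.filter (fun x => g x = g x0)).card :=
      le_antisymm (hle P hP _ (hmaps x0 hx0)) (hle _ (hmaps x0 hx0) P hP)
    rw [← h2, Finset.card_eq_sum_ones, Finset.sum_mul]
    refine Finset.sum_congr rfl (fun x hx => ?_)
    rw [(mem_filter.1 hx).2, one_mul]

end Pool.Agent.Work.MP_9999b5_m2
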