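import Pool.Agent.Work.MP_9999b5_m2.Interface

/-! Block SUM2 (helper21). -/

set_option autoImplicit false

namespace Pool.Agent.Work.MP_9999b5_m2

open Finset Pool.Agent.Work.MP_9999b5_mr

lemma SUM2_inj {ι : Type} {C : Finset ι} {u r : ℕ}
    (e : Fin (2 * u + 2) × Fin (2 * r) ≃ {i // i ∈ C}) :
    Function.Injective (fun p : Fin (2 * u + 2) × Fin (2 * r) => (e p : ι)) := by
  intro p q h
  exact e.injective (Subtype.ext h)

lemma SUM2_injM {ι : Type} {C : Finset ι} {u r : ℕ}
    (e : Fin (2 * u + 2) × Fin (2 * r) ≃ {i // i ∈ C}) (M : Fin (2 * u + 2)) :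
    Function.Injective (fun t : Fin (2 * r) => (e (M, t) : ι)) := by
  intro t t' h
  have := SUM2_inj e (a₁ := (M, t)) (a₂ := (M, t')) h
  exact (Prod.ext_iff.mp this).2

lemma SUM2_card (r : ℕ) (f : Bool) :
    (univ.filter (fun t : Fin (2 * r) => decide ((t : ℕ) < r) = f)).card = r := by
  have h1 : (univ.filter (fun t : Fin (2 * r) => (t : ℕ) < r)).card = r := by
    rw [Fin.card_filter_val_lt]
    omega
  cases f with
  | true => simpa using h1
  | false =>
    have h2 := Finset.card_filter_add_card_filter_not (s := (univ : Finset (Fin (2 * r))))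
      (fun t : Fin (2 * r) => (t : ℕ) < r)
    rw [h1, Finset.card_univ, Fintype.card_fin] at h2
    have h3 : (univ.filter (fun t : Fin (2 * r) => decide ((t : ℕ) < r) = false)) =
        univ.filter (fun t : Fin (2 * r) => ¬ (t : ℕ) < r) := by
      ext t
      simp
    rw [h3]
    omega

lemma SUM2_disj {ι : Type} [DecidableEq ι] (C : Finset ι) (u r : ℕ)
    (e : Fin (2 * u + 2) × Fin (2 * r) ≃ {i // i ∈ C}) (M : Fin (2 * u + 2))
    (J : Finset (Fin (2 * u + 2))) (hM : M ∉ J) (f : Bool) :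
    Disjoint (bl C u r e J) (hf C u r e M f) := by
  rw [Finset.disjoint_left]
  intro i h1 h2
  unfold bl at h1
  unfold hf at h2
  obtain ⟨p, hp, rfl⟩ := Finset.mem_image.mp h1
  obtain ⟨t, _, ht⟩ := Finset.mem_image.mp h2
  have h3 := SUM2_inj e (a₁ := (M, t)) (a₂ := p) ht
  rw [← h3] at hp
  exact hM (Finset.mem_product.mp hp).1

lemma SUM2_bl {ι : Type} [DecidableEq ι] (C : Finset ι) (x : ι → ℝ) (u r : ℕ)
    (e : Fin (2 * u + 2) × Fin (2 * r) ≃ {i // i ∈ C}) (J : Finset (Fin (2 * u + 2))) :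
    ∑ i ∈ bl C u r e J, x i = ∑ j ∈ J, sm C x u r e j := by
  unfold bl sm
  rw [Finset.sum_image (fun a _ b _ h => SUM2_inj e h), Finset.sum_product]

lemma SUM2_hf {ι : Type} [DecidableEq ι] (C : Finset ι) (x : ι → ℝ) (u r : ℕ)
    (e : Fin (2 * u + 2) × Fin (2 * r) ≃ {i // i ∈ C}) (M : Fin (2 * u + 2)) (f : Bool) :
    ∑ i ∈ hf C u r e M f, x i =
      ∑ t ∈ univ.filter (fun t : Fin (2 * r) => decide ((t : ℕ) < r) = f), x (e (M, t)) := by
  unfold hf
  rw [Finset.sum_image (fun a _ b _ h => SUM2_injM e M h)]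

lemma SUM2_two {ι : Type} [DecidableEq ι] (C : Finset ι) (x : ι → ℝ) (u r : ℕ)
    (e : Fin (2 * u + 2) × Fin (2 * r) ≃ {i // i ∈ C}) (M : Fin (2 * u + 2)) :
    ∑ i ∈ hf C u r e M true, x i + ∑ i ∈ hf C u r e M false, x i = sm C x u r e M := by
  rw [SUM2_hf, SUM2_hf]
  unfold sm
  rw [← Finset.sum_filter_add_sum_filter_not (univ : Finset (Fin (2 * r)))
    (fun t : Fin (2 * r) => (t : ℕ) < r)]
  congr 1
  · apply Finset.sum_congr _ fun _ _ => rfl
    ext t
    simp
  · apply Finset.sum_congr _ fun _ _ => rfl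
    ext t
    simp

theorem p_SUM2 : Stmt_SUM2 := by
  intro ι _ C x u r e
  refine ⟨?_, fun M J hM => ⟨?_, ?_, fun f => ?_⟩⟩
  · unfold sm
    rw [← Fintype.sum_prod_type' (f := fun j t => x (e (j, t)))]
    rw [Equiv.sum_comp e (fun q : {i // i ∈ C} => x q)]
    exact Finset.sum_coe_sort C x
  · rw [Finset.sum_union (SUM2_disj C u r e M J hM true), SUM2_bl]
    rfl
  · rw [Finset.sum_union (SUM2_disj C u r e M J hM false), SUM2_bl, ← SUM2_two C x u r e M]
    unfold sh
    ring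
  · rw [Finset.card_union_of_disjoint (SUM2_disj C u r e M J hM f)]
    unfold bl hf
    rw [Finset.card_image_of_injective _ (SUM2_inj e), Finset.card_product, Finset.card_univ,
      Fintype.card_fin, Finset.card_image_of_injective _ (SUM2_injM e M), SUM2_card]

end Pool.Agent.Work.MP_9999b5_m2

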