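import Pool.Agent.Work.MP_9999b5_m2.Interface

/-!
MP_9999b5_co, block TRV: the trivial bound for the number of bad pairs with offsets.
-/

set_option autoImplicit false

namespace Pool.Agent.Work.MP_9999b5_m2

open Finset Pool.Agent.Work.MP_9999b5_mr

theorem p_TRV : Pool.Agent.Work.MP_9999b5_mr.Stmt_PAC → Stmt_TRV := by
  intro hPAC ι _ C x a b k hC
  have h1 : bad2 C x a b k ≤ (prs C k).card := card_filter_le _ _
  have h2 : (prs C k).card = (2 * k).choose k * C.card.choose (2 * k) := (hPAC ι C x k).1
  have h3 : (2 * k + 1).choose (2 * k) = 2 * k + 1 := Nat.choose_succ_self_right (2 * k)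
  rw [h2, hC, h3, Nat.mul_comm] at h1
  exact h1

end Pool.Agent.Work.MP_9999b5_m2
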