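import Pool.Agent.Work.MP_9999b5_m2.Interface

set_option autoImplicit false

namespace Pool.Agent.Work.MP_9999b5_m2

open Finset Pool.Agent.Work.MP_9999b5_mr

theorem TWO_mem {ι : Type} [DecidableEq ι] (C : Finset ι) (k : ℕ) (p : Finset ι × Finset ι) :
    p ∈ prs C k ↔ (p.1 ⊆ C ∧ p.1.card = k) ∧ (p.2 ⊆ C ∧ p.2.card = k) ∧ Disjoint p.1 p.2 := by
  unfold prs
  rw [Finset.mem_filter, Finset.mem_product, Finset.mem_powersetCard, Finset.mem_powersetCard]
  tauto

theorem TWO_cnt {ι : Type} [DecidableEq ι] (C : Finset ι) (k : ℕ) (z : ι)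
    (hC : C.card = 2 * k + 1) (hz : z ∈ C) :
    ((prs C k).filter (fun p => z ∉ p.1)).card ≤ (k + 1) * (2 * k).choose k := by
  have h1 : (prs C k).filter (fun p => z ∉ p.1) ⊆
      ((C.erase z).powersetCard k).biUnion
        (fun P => ((C \ P).powersetCard k).image (fun Q => (P, Q))) := by
    intro p hp
    rw [Finset.mem_filter, TWO_mem] at hp
    obtain ⟨⟨⟨h1, h2⟩, ⟨h3, h4⟩, h5⟩, h6⟩ := hp
    rw [Finset.mem_biUnion]
    refine ⟨p.1, ?_, ?_⟩
    · rw [Finset.mem_powersetCard]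
      refine ⟨?_, h2⟩
      intro i hi
      rw [Finset.mem_erase]
      refine ⟨?_, h1 hi⟩
      rintro rfl
      exact h6 hi
    · rw [Finset.mem_image]
      refine ⟨p.2, ?_, rfl⟩
      rw [Finset.mem_powersetCard]
      refine ⟨?_, h4⟩
      intro i hi
      rw [Finset.mem_sdiff]
      refine ⟨h3 hi, ?_⟩
      intro hi'
      exact (Finset.disjoint_left.mp h5 hi') hi
  refine (Finset.card_le_card h1).trans (Finset.card_biUnion_le.trans ?_)
  have h2 : ∀ P ∈ (C.erase z).powersetCard k,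
      (((C \ P).powersetCard k).image (fun Q => (P, Q))).card ≤ k + 1 := by
    intro P hP
    rw [Finset.mem_powersetCard] at hP
    refine Finset.card_image_le.trans ?_
    rw [Finset.card_powersetCard,
      Finset.card_sdiff_of_subset (hP.1.trans (Finset.erase_subset z C)), hP.2, hC]
    have h3 : 2 * k + 1 - k = k + 1 := by omega
    rw [h3, Nat.choose_succ_self_right]
  refine (Finset.sum_le_card_nsmul _ _ _ h2).trans ?_
  rw [Finset.card_powersetCard, Finset.card_erase_of_mem hz, hC, smul_eq_mul, mul_comm]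
  simp

theorem TWO_cnt2 {ι : Type} [DecidableEq ι] (C : Finset ι) (k : ℕ) (z : ι)
    (hC : C.card = 2 * k + 1) (hz : z ∈ C) :
    ((prs C k).filter (fun p => z ∉ p.2)).card ≤ (k + 1) * (2 * k).choose k := by
  have h1 : ((prs C k).filter (fun p => z ∉ p.2)).card ≤
      ((prs C k).filter (fun p => z ∉ p.1)).card := by
    refine Finset.card_le_card_of_injOn Prod.swap ?_ ?_
    · intro p hp
      rw [Finset.mem_coe, Finset.mem_filter, TWO_mem] at hp
      rw [Finset.mem_coe, Finset.mem_filter, TWO_mem]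
      obtain ⟨⟨h1, h2, h5⟩, h6⟩ := hp
      exact ⟨⟨h2, h1, h5.symm⟩, h6⟩
    · intro p _ q _ h
      exact Prod.swap_injective h
  exact h1.trans (TWO_cnt C k z hC hz)

theorem TWO_sum {ι : Type} [DecidableEq ι] (C P : Finset ι) (x : ι → ℝ) (d : ℝ) (z : ι)
    (hd : x z = d) (h0 : ∀ i ∈ C, i ≠ z → x i = 0) (hP : P ⊆ C) (hz : z ∈ P) :
    ∑ i ∈ P, x i = d := by
  rw [Finset.sum_eq_single_of_mem z hz (fun i hi hiz => h0 i (hP hi) hiz), hd]

theorem p_TWO : Pool.Agent.Work.MP_9999b5_mr.Stmt_PAC → Stmt_TWO := by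
  intro _ ι _ C x a b d k z hC hz hd hxz h0 hab
  unfold bad2
  by_cases ha : -d < a
  · refine (Finset.card_le_card ?_).trans (TWO_cnt C k z hC hz)
    intro p hp
    rw [Finset.mem_filter] at hp
    rw [Finset.mem_filter]
    refine ⟨hp.1, ?_⟩
    intro hzp
    have h1 := TWO_sum C p.1 x d z hxz h0 ((TWO_mem C k p).mp hp.1).1.1 hzp
    have h2 := hp.2.1
    rw [h1] at h2
    linarith
  · refine (Finset.card_le_card ?_).trans (TWO_cnt2 C k z hC hz)
    intro p hp
    rw [Finset.mem_filter] at hp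
    rw [Finset.mem_filter]
    refine ⟨hp.1, ?_⟩
    intro hzp
    have h1 := TWO_sum C p.2 x d z hxz h0 ((TWO_mem C k p).mp hp.1).2.1.1 hzp
    have h2 := hp.2.2
    rw [h1] at h2
    linarith

end Pool.Agent.Work.MP_9999b5_m2
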