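import Pool.Agent.Work.MP_9999b5_mr.All
import Pool.Agent.Work.MP_9999b5_m2.B_AVE
import Pool.Agent.Work.MP_9999b5_m2.B_AVT
import Pool.Agent.Work.MP_9999b5_m2.B_AVZ
import Pool.Agent.Work.MP_9999b5_m2.B_FIN2
import Pool.Agent.Work.MP_9999b5_m2.B_HCK
import Pool.Agent.Work.MP_9999b5_m2.B_HED2
import Pool.Agent.Work.MP_9999b5_m2.B_LED2
import Pool.Agent.Work.MP_9999b5_m2.B_LIF2
import Pool.Agent.Work.MP_9999b5_m2.B_ONE2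
import Pool.Agent.Work.MP_9999b5_m2.B_ORB2
import Pool.Agent.Work.MP_9999b5_m2.B_SUM2
import Pool.Agent.Work.MP_9999b5_m2.B_TRV
import Pool.Agent.Work.MP_9999b5_m2.B_TWO
import Pool.Agent.Work.MP_9999b5_m2.B_ZER2

/-!
MP_9999b5_co: assembly of the case `T ∣ 2k`.
-/

set_option autoImplicit false

namespace Pool.Agent.Work.MP_9999b5_m2

theorem h_TRV : Stmt_TRV := p_TRV MP_9999b5_mr.h_PAC

theorem h_ONE2 : Stmt_ONE2 := p_ONE2 MP_9999b5_mr.p_CNT MP_9999b5_mr.h_NUM p_LED2 p_HED2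

theorem h_AVE : Stmt_AVE := p_AVE h_ONE2 h_TRV

theorem h_AVZ : Stmt_AVZ := p_AVZ h_TRV

theorem h_AVT : Stmt_AVT := p_AVT h_ONE2 (p_TWO MP_9999b5_mr.h_PAC)

theorem h_LIF2 : Stmt_LIF2 := p_LIF2 MP_9999b5_mr.h_PAC h_AVE h_AVZ h_AVT p_SUM2 (p_ORB2 p_SUM2) p_HCK p_ZER2

theorem h_FIN2 : Stmt_FIN2 := p_FIN2 MP_9999b5_mr.h_LIF h_LIF2 MP_9999b5_mr.h_RED

end Pool.Agent.Work.MP_9999b5_m2
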