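import Pool.Agent.Work.MP_9999b5_mr.Interface

/-!
MP_9999b5_co (Manickam-Miklos-Singhi), `n = 4k + T`: the two inequalities `QQ`, `HH` of `MP_9999b5_mr/Interface.lean` for
`T ∣ 2k`, `k / T` half integral (proof: helper9, interface: helper51). Strict version (sets with sum `> 0` are counted).

`T = 2r`, `k = u T + r`, `m = 2k + T = (2u + 2) T`: `C` is cut into `2u + 2` blocks of `T` elements, one of them (`M`) is cut
into two halves, `u` of the other blocks go to each half, one block (`K`) is left over.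

RULES: one file `Pool/Agent/Work/MP_9999b5_m2/B_<ID>.lean` per block, `import Pool.Agent.Work.MP_9999b5_m2.Interface`,
`namespace Pool.Agent.Work.MP_9999b5_m2`, `open Finset Pool.Agent.Work.MP_9999b5_mr`, theorem `p_<ID> : Stmt_X → Stmt_Y → Stmt_<ID>` with
exactly the statements of the column `uses` as hypotheses, in this order (`mr.X` in this column means
`Pool.Agent.Work.MP_9999b5_mr.Stmt_X`); auxiliary lemmas with the name of the block in front. No straight double quotes. MODELS: the files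
`MP_9999b5_mr/B_LED.lean`, `B_HED.lean`, `B_ONE.lean`, `B_ORB.lean`, `B_ZER.lean`, `B_LIF.lean`, `B_FIN.lean` (copy and adapt; do not edit them).
-/

set_option autoImplicit false

namespace Pool.Agent.Work.MP_9999b5_m2

open Finset Pool.Agent.Work.MP_9999b5_mr

/-! ### A. `2k + 1` elements and two offsets `a`, `b`; `c = ∑ x + a + b` -/

/-- the elements `z` with `c ≤ x z` -/
noncomputable def Hc {ι : Type} [DecidableEq ι] (C : Finset ι) (x : ι → ℝ) (c : ℝ) : Finset ι :=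
  C.filter (fun z => c ≤ x z)

/-- number of `k`-subsets with `j` elements in `H` -/
def Nj {ι : Type} [DecidableEq ι] (C H : Finset ι) (k j : ℕ) : ℕ :=
  ((C.powersetCard k).filter (fun P => (P ∩ H).card = j)).card

/-- number of `k`-subsets with `j` elements in `H` and `0 < x(P) + a` -/
noncomputable def Gj {ι : Type} [DecidableEq ι] (C H : Finset ι) (x : ι → ℝ) (a : ℝ) (k j : ℕ) : ℕ :=
  ((C.powersetCard k).filter (fun P => (P ∩ H).card = j ∧ 0 < ∑ i ∈ P, x i + a)).card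

/-- number of pairs with `x(p.1) + a ≤ 0` and `x(p.2) + b ≤ 0` -/
noncomputable def bad2 {ι : Type} [DecidableEq ι] (C : Finset ι) (x : ι → ℝ) (a b : ℝ) (k : ℕ) : ℕ :=
  ((prs C k).filter (fun p => ∑ i ∈ p.1, x i + a ≤ 0 ∧ ∑ i ∈ p.2, x i + b ≤ 0)).card

/-- LED2 (100 lines), see `mr/B_LED.lean`. Pairs `(P, y)`, `P` a `k`-subset with `j` heavy elements, `y ∈ C \ P` light; `P' = C \ P \ {y}`:
`x(P) + a + x(P') + b = c - x y > 0`, so `0 < x(P) + a` or `0 < x(P') + b`. -/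
def Stmt_LED2 : Prop := ∀ (ι : Type) [DecidableEq ι] (C : Finset ι) (x : ι → ℝ) (a b c : ℝ) (k j : ℕ),
  C.card = 2 * k + 1 → c = ∑ i ∈ C, x i + a + b → j ≤ (Hc C x c).card →
  Nj C (Hc C x c) k j * (k + 1 + j - (Hc C x c).card) ≤
    Gj C (Hc C x c) x a k j * (k + 1 + j - (Hc C x c).card) +
      Gj C (Hc C x c) x b k ((Hc C x c).card - j) * (k + 1 - j)

/-- HED2 (120 lines), see `mr/B_HED.lean`. Pairs `(P, z)`, `P` a `k`-subset, `z ∈ Hc \ P`; `P' = C \ P \ {z}`: `x(P) + a + x(P') + b = c - x z ≤ 0`, so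
not both are positive; `(P, P')` is bad iff none is. -/
def Stmt_HED2 : Prop := ∀ (ι : Type) [DecidableEq ι] (C : Finset ι) (x : ι → ℝ) (a b c : ℝ) (k : ℕ),
  C.card = 2 * k + 1 → c = ∑ i ∈ C, x i + a + b →
  bad2 C x a b k +
      ∑ j ∈ range ((Hc C x c).card + 1), Gj C (Hc C x c) x a k j * ((Hc C x c).card - j) +
      ∑ j ∈ range ((Hc C x c).card + 1), Gj C (Hc C x c) x b k j * ((Hc C x c).card - j) =
    (Hc C x c).card * (2 * k).choose k

/-- ONE2 (90 lines; uses mr.CNT mr.NUM LED2 HED2), see `mr/B_ONE.lean`. For `2 j ≤ h`: LED2 for `h - j` (for `(a, b)` and for `(b, a)`) gives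
`j N (h-j) ≤ j Ga (h-j) + (h-j) Gb j` and the same with `a`, `b` exchanged. Sum over `j` and over `h - j`:
`∑ min j (h-j) N (max ..) ≤ ∑ (h - j) Ga j + ∑ (h - j) Gb j`. -/
def Stmt_ONE2 : Prop := ∀ (ι : Type) [DecidableEq ι] (C : Finset ι) (x : ι → ℝ) (a b c : ℝ) (k : ℕ),
  C.card = 2 * k + 1 → c = ∑ i ∈ C, x i + a + b → (Hc C x c).card ≤ 2 * k →
  2 * bad2 C x a b k ≤ ((Hc C x c).card + (Hc C x c).card % 2) * (2 * k).choose k

/-- TRV (30 lines; uses mr.PAC): all pairs. -/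
def Stmt_TRV : Prop := ∀ (ι : Type) [DecidableEq ι] (C : Finset ι) (x : ι → ℝ) (a b : ℝ) (k : ℕ),
  C.card = 2 * k + 1 → bad2 C x a b k ≤ (2 * k + 1) * (2 * k).choose k

/-- TWO (80 lines; uses mr.PAC). `x` is `d > 0` at one element `z` of `C` and `0` at the others, `a + b = - d`: a pair is bad only if `z` is not in one
fixed part. (If `a > - d` then `z ∉ p.1`, otherwise `b ≥ 0 > - d` and `z ∉ p.2`.) The number of pairs of disjoint `k`-subsets with `z ∉ p.1` is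
`C(2k, k) C(k+1, k)` (`p.1 ⊆ C \ z`, then `p.2 ⊆ C \ p.1`). -/
def Stmt_TWO : Prop := ∀ (ι : Type) [DecidableEq ι] (C : Finset ι) (x : ι → ℝ) (a b d : ℝ) (k : ℕ) (z : ι),
  C.card = 2 * k + 1 → z ∈ C → 0 < d → x z = d → (∀ i ∈ C, i ≠ z → x i = 0) → a + b = - d →
  bad2 C x a b k ≤ (k + 1) * (2 * k).choose k

/-! ### B. One order: block sums `y`, `M` is the block that is cut, `w M` the sum of its first half -/

/-- number of (`M`, pair) which are bad -/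
noncomputable def BB (u : ℕ) (y w : Fin (2 * u + 2) → ℝ) : ℕ :=
  ∑ M, bad2 (univ.erase M) y (w M) (y M - w M) u

/-- number of (`M`, `K`), `K ≠ M` with `∑ y ≤ y K` -/
noncomputable def JJ (u : ℕ) (y : Fin (2 * u + 2) → ℝ) : ℕ :=
  ∑ M, (Hc (univ.erase M) y (∑ i, y i)).card

/-- AVE (150 lines; uses ONE2 TRV). `s` = number of all `i` with `∑ y ≤ y i`; `s ≤ 2u + 1`: otherwise `(2u+2) c ≤ c`, `c = 0`, all `y i ≥ 0` with sum `0`, all
are `0`. The number of heavy blocks `≠ M` is `J M = s - 1` if `M` is heavy and `s` if not, so `JJ = s (s - 1) + (2u+2-s) s = (2u+1) s`. ONE2 for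
`C = univ.erase M` (`2u + 1` elements, offsets `w M`, `y M - w M`, the same `c`): `2 bad ≤ (J M + J M % 2) X` if `J M ≤ 2u`; TRV: `2 bad ≤ 2 (2u+1) X` for
`J M = 2u + 1` (then `s = 2u + 1` and `M` is the only light block). `s` odd, `s ≤ 2u - 1`: excess over `JJ X`: `(2u + 2 - s) X ≤ (2u + 1) X` (`1 ≤ s`). `s` even:
`s X ≤ 2u X`. `s = 2u + 1`: `(2u+1) X` from the light `M`, `0` from the others. Second inequality: `J M + J M % 2 ≤ 2u` if `J M ≤ 2u`; for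
`s = 2u+1`: `(2u+1) 2u X + 2 (2u+1) X = (2u+1)(2u+2) X`. -/
def Stmt_AVE : Prop := ∀ (u : ℕ) (y w : Fin (2 * u + 2) → ℝ), 1 ≤ u → 0 ≤ ∑ i, y i → (∃ i, y i ≠ 0) →
  2 * BB u y w ≤ (JJ u y + (2 * u + 1)) * (2 * u).choose u ∧
  2 * BB u y w ≤ (2 * u + 1) * (2 * u + 2) * (2 * u).choose u

/-- AVZ (60 lines; uses TRV): all block sums `0`; then `JJ = (2u+1)(2u+2)`. -/
def Stmt_AVZ : Prop := ∀ (u : ℕ) (y w : Fin (2 * u + 2) → ℝ), (∀ i, y i = 0) →
  JJ u y = (2 * u + 1) * (2 * u + 2) ∧ BB u y w ≤ (2 * u + 1) * (2 * u + 2) * (2 * u).choose u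

/-- two nonzero blocks -/
def Tw (u : ℕ) (y : Fin (2 * u + 2) → ℝ) : Prop :=
  ∃ (i j : Fin (2 * u + 2)) (d : ℝ), i ≠ j ∧ 0 < d ∧ y i = d ∧ y j = -d ∧ ∀ l, l ≠ i → l ≠ j → y l = 0

/-- AVT (120 lines; uses ONE2 TWO). `∑ y = 0`, heavy = all blocks but `j`. `M = j`: TWO (`z = i`), `2 bad ≤ (2u+2) X`, `J M = 2u + 1`. `M ≠ j`: `J M = 2u`, ONE2:
`2 bad ≤ 2u X`. `JJ = (2u+1)(2u+1)`. So `2 BB ≤ (2u+2) X + (2u+1) 2u X = (JJ + 1) X`. -/
def Stmt_AVT : Prop := ∀ (u : ℕ) (y w : Fin (2 * u + 2) → ℝ), 1 ≤ u → Tw u y →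
  2 * BB u y w ≤ (JJ u y + 1) * (2 * u).choose u ∧
  2 * BB u y w ≤ ((2 * u + 1) * (2 * u) + (2 * u + 2)) * (2 * u).choose u

/-! ### C. Orders -/

/-- the union of the blocks with numbers in `J` -/
def bl {ι : Type} [DecidableEq ι] (C : Finset ι) (u r : ℕ)
    (e : Fin (2 * u + 2) × Fin (2 * r) ≃ {i // i ∈ C}) (J : Finset (Fin (2 * u + 2))) : Finset ι :=
  (J ×ˢ (univ : Finset (Fin (2 * r)))).image (fun p => (e p : ι))

/-- the first (`f = true`) or second half of the block `M` -/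
def hf {ι : Type} [DecidableEq ι] (C : Finset ι) (u r : ℕ)
    (e : Fin (2 * u + 2) × Fin (2 * r) ≃ {i // i ∈ C}) (M : Fin (2 * u + 2)) (f : Bool) : Finset ι :=
  (univ.filter (fun t : Fin (2 * r) => decide ((t : ℕ) < r) = f)).image (fun t => (e (M, t) : ι))

/-- the block sums -/
noncomputable def sm {ι : Type} [DecidableEq ι] (C : Finset ι) (x : ι → ℝ) (u r : ℕ)
    (e : Fin (2 * u + 2) × Fin (2 * r) ≃ {i // i ∈ C}) (j : Fin (2 * u + 2)) : ℝ :=
  ∑ t : Fin (2 * r), x (e (j, t))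

/-- the sums of the first halves -/
noncomputable def sh {ι : Type} [DecidableEq ι] (C : Finset ι) (x : ι → ℝ) (u r : ℕ)
    (e : Fin (2 * u + 2) × Fin (2 * r) ≃ {i // i ∈ C}) (j : Fin (2 * u + 2)) : ℝ :=
  ∑ i ∈ hf C u r e j true, x i

/-- SUM2 (80 lines): cardinalities and sums of the two parts, and the total. -/
def Stmt_SUM2 : Prop := ∀ (ι : Type) [DecidableEq ι] (C : Finset ι) (x : ι → ℝ) (u r : ℕ)
    (e : Fin (2 * u + 2) × Fin (2 * r) ≃ {i // i ∈ C}),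
  (∑ j, sm C x u r e j = ∑ i ∈ C, x i) ∧
  ∀ (M : Fin (2 * u + 2)) (J : Finset (Fin (2 * u + 2))), M ∉ J →
    (∑ i ∈ bl C u r e J ∪ hf C u r e M true, x i = ∑ j ∈ J, sm C x u r e j + sh C x u r e M) ∧
    (∑ i ∈ bl C u r e J ∪ hf C u r e M false, x i =
      ∑ j ∈ J, sm C x u r e j + (sm C x u r e M - sh C x u r e M)) ∧
    ∀ f, (bl C u r e J ∪ hf C u r e M f).card = J.card * (2 * r) + r

/-- ORB2 (150 lines; uses SUM2), symmetry, see `mr/B_ORB.lean`. The number of `(e, M, p)` with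
`(bl e p.1 ∪ hf e M true, bl e p.2 ∪ hf e M false) = P` is the same for all `P ∈ prs C (u (2r) + r)`. -/
def Stmt_ORB2 : Prop := ∀ (ι : Type) [DecidableEq ι] (C : Finset ι) (u r : ℕ),
  C.card = (2 * u + 2) * (2 * r) → ∃ N : ℕ, 0 < N ∧ ∀ F : Finset ι → Finset ι → ℕ,
    ∑ e : Fin (2 * u + 2) × Fin (2 * r) ≃ {i // i ∈ C}, ∑ M : Fin (2 * u + 2),
      ∑ p ∈ prs (univ.erase M) u,
        F (bl C u r e p.1 ∪ hf C u r e M true) (bl C u r e p.2 ∪ hf C u r e M false) =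
      N * ∑ P ∈ prs C (u * (2 * r) + r), F P.1 P.2

/-- HCK (50 lines): the number of pairs whose union with `M` has sum `≤ 0` (the block that is left over is heavy). -/
def Stmt_HCK : Prop := ∀ (u : ℕ) (y : Fin (2 * u + 2) → ℝ) (M : Fin (2 * u + 2)),
  ((prs (univ.erase M) u).filter (fun p => ∑ i ∈ p.1, y i + ∑ i ∈ p.2, y i + y M ≤ 0)).card =
    (Hc (univ.erase M) y (∑ i, y i)).card * (2 * u).choose u

open Classical in
/-- ZER2 (120 lines), see `mr/B_ZER.lean`. Orders `e` with all block sums `0`: exchange the elements `(i, 0)` and `(j, 0)`; the new order has exactly two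
nonzero block sums `± d` (`x` is injective). There are `(u+1)(2u+1)` sets `{i, j}`. -/
def Stmt_ZER2 : Prop := ∀ (ι : Type) [DecidableEq ι] (C : Finset ι) (x : ι → ℝ) (u r : ℕ),
  C.card = (2 * u + 2) * (2 * r) → 1 ≤ r → Set.InjOn x C → ∑ i ∈ C, x i = 0 →
  (univ.filter (fun e : Fin (2 * u + 2) × Fin (2 * r) ≃ {i // i ∈ C} =>
      ∀ j, sm C x u r e j = 0)).card * ((u + 1) * (2 * u + 1)) ≤
    (univ.filter (fun e : Fin (2 * u + 2) × Fin (2 * r) ≃ {i // i ∈ C} =>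
      Tw u (sm C x u r e))).card

/-- LIF2 (150 lines; uses mr.PAC AVE AVZ AVT SUM2 ORB2 HCK ZER2), see `mr/B_LIF.lean`. `z`, `t` = numbers of the orders with all block sums `0`, resp. `Tw`;
`X = C(2u, u)`, `E` = number of all orders. Sum over the orders: `∑ 2 BB ≤ ∑ JJ X + (2u+1) X E + z (2u+1)² X - t 2u X` (AVZ: excess
`(2u+1)(2u+2) X = (2u+1) X + (2u+1)² X`), and `z (u+1)(2u+1) ≤ t`, `(2u+1)² ≤ 2u (u+1)(2u+1)`. `∑ 2 BB ≤ (2u+1)(2u+2) X E + z (2u+1)(2u+2) X - t 2u X`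
(`(2u+1)(2u+2) - (2u+1) 2u - (2u+2) = 2u`), `(2u+1)(2u+2) ≤ 2u (u+1)(2u+1)`. ORB2 for the indicators of bad (SUM2), of
`x(P.1) + x(P.2) ≤ 0` (HCK) and for `1` (PAC: `(2u+2)(2u+1) X E = N |prs|`). `|C| = 2k + T = (2u+2)(2r)`. If `∑ x > 0` then `z = 0`. -/
def Stmt_LIF2 : Prop := ∀ u r : ℕ, 1 ≤ u → 1 ≤ r →
  QQ (u * (2 * r) + r) (2 * r) ∧ HH (u * (2 * r) + r) (2 * r)

/-! ### D. The result -/

/-- FIN2 (80 lines; uses mr.LIF LIF2 mr.RED). `T ∣ 2k`, `T < k`: `T ∣ k` (`mr.LIF`, `mr.RED`), or `2k = T q`, `q` odd, so `T = 2r`, `q = 2u + 1`, `k = u T + r`, `1 ≤ u` (LIF2, `mr.RED`).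
(`4k ≤ n`, `n ≡ T` modulo `k`; `T = k`, `T = 2k`: `k ∣ n`, Divisible.) For `n = 4k + T + j k`: `FIN_rec`, `FIN_choose` of `mr/B_FIN.lean` (import it). -/
def Stmt_FIN2 : Prop := ∀ k n T : ℕ, 0 < k → 4 * k ≤ n → T ∣ 2 * k → n ≡ T [MOD k] →
  IsGreatest (Pool.Agent.Work.MaxSums.values k n) ((n - 1).choose k) ∧
    Pool.Agent.Work.MaxSums.MMS k n

end Pool.Agent.Work.MP_9999b5_m2
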